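import Pool.Agent.H.MP_44257e_co.UB.Defs

/-!
# Upper bound for `T = {0, 1, t}`, `k = n + t`, `4 ≤ t`, `2 t ≤ n`: definitions

`thr`, `thr3`, `Yu` are those of `UB/Defs.lean` (members through two or three points, union).
-/

set_option autoImplicit false

namespace MP44257e

variable {v : ℕ}

/-- The pair `x, y` is a sunflower pair with kernel `K` of `t` points. -/
def SunT (t : ℕ) (A : Finset (Finset (Fin v))) (x y : Fin v) : Prop :=
  ∃ K : Finset (Fin v), K.card = t ∧ x ∈ K ∧ y ∈ K ∧ ∀ X ∈ thr A x y, K ⊆ X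

/-- `L x y` is the line (of `t` points) through `x` and `y`. -/
def IsDesL (t : ℕ) (A : Finset (Finset (Fin v))) (L : Fin v → Fin v → Finset (Fin v)) : Prop :=
  (∀ x y, x ≠ y → (L x y).card = t ∧ x ∈ L x y ∧ y ∈ L x y) ∧
  (∀ X ∈ A, ∀ x ∈ X, ∀ y ∈ X, x ≠ y → L x y ⊆ X) ∧
  ∀ x y z, x ≠ y → z ∉ L x y → ∃ X ∈ A, x ∈ X ∧ y ∈ X ∧ z ∈ X

/-- Bad pairs: not a sunflower, degree at least `n ^ 2 - (t - 4) n + 1`. -/
def BadT (n t : ℕ) (A : Finset (Finset (Fin v))) (x y : Fin v) : Prop :=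
  x ≠ y ∧ ¬ SunT t A x y ∧ n ^ 2 + 1 ≤ (thr A x y).card + n * (t - 4)

/-- A kernel of `t - 1` points. -/
def Ker (n t : ℕ) (A : Finset (Finset (Fin v))) (x y : Fin v) (K : Finset (Fin v)) : Prop :=
  K.card + 1 = t ∧ x ∈ K ∧ y ∈ K ∧ (∀ X ∈ thr A x y, K ⊆ X) ∧
    ∀ z, z ∉ K → (thr3 A x y z).card ≤ n + 1

theorem interT {k t : ℕ} (ht : 2 ≤ t) {A : Finset (Finset (Fin v))} (hA : IsFam [0, 1, t] k A)
    {X Y : Finset (Fin v)} (hX : X ∈ A) (hY : Y ∈ A) (h : X ≠ Y) {x y : Fin v} (hxy : x ≠ y)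
    (h1 : x ∈ X) (h2 : y ∈ X) (h3 : x ∈ Y) (h4 : y ∈ Y) : (X ∩ Y).card = t := by
  have h5 := hA.2 X hX Y hY h
  have h6 : 2 ≤ (X ∩ Y).card := by
    have : ({x, y} : Finset (Fin v)) ⊆ X ∩ Y := by
      intro a ha
      simp only [Finset.mem_insert, Finset.mem_singleton] at ha
      rcases ha with rfl | rfl
      · exact Finset.mem_inter.2 ⟨h1, h3⟩
      · exact Finset.mem_inter.2 ⟨h2, h4⟩
    calc 2 = ({x, y} : Finset (Fin v)).card := (Finset.card_pair hxy).symm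
      _ ≤ _ := Finset.card_le_card this
  simp only [List.mem_cons, List.not_mem_nil, or_false] at h5
  omega

/-- Two different members share at most `t` points. -/
theorem interT_le {k t : ℕ} (ht : 1 ≤ t) {A : Finset (Finset (Fin v))}
    (hA : IsFam [0, 1, t] k A) {X Y : Finset (Fin v)} (hX : X ∈ A) (hY : Y ∈ A) (h : X ≠ Y) :
    (X ∩ Y).card ≤ t := by
  have h5 := hA.2 X hX Y hY h
  simp only [List.mem_cons, List.not_mem_nil, or_false] at h5
  omega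

end MP44257e
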