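import Pool.Agent.H.MP_44257e_co.UE.E0

/-!
# The centroid inequality

`centroid`: `𝓕 = thr A x y`, `m` members of `k = n + t` points, pairwise intersections `t`
(`interT`); `r = (thr3 A x y z).card` of them contain `z`, `s = m - r`. For points `q` let `a q` be the
number of the members through `z` that contain `q`, `b q` of those not through `z`. Then
`∑_q (s a_q - r b_q)^2 = s^2 (r k + r (r-1) t) + r^2 (s k + s (s-1) t) - 2 r s * r s t = r s m n`, and
the summand for `q = z` is `(s r)^2`. So `(r s)^2 ≤ r s m n`, `r s ≤ m n`.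

`dichotomy`: `(n + 2)^2 < 2 m`. If `n + 2 ≤ r ≤ m - n - 2` then `r (m - r) ≥ (n + 2) (m - n - 2) > n m`.
-/

set_option autoImplicit false

namespace MP44257e

variable {v n t : ℕ} {A : Finset (Finset (Fin v))} {x y : Fin v}

private theorem E1_quad {F : Finset (Finset (Fin v))} (h1 : ∀ X ∈ F, X.card = n + t)
    (h2 : ∀ X ∈ F, ∀ Y ∈ F, X ≠ Y → (X ∩ Y).card = t) (w : Finset (Fin v) → ℤ) :
    ∑ q : Fin v, (∑ X ∈ F, if q ∈ X then w X else 0) ^ 2 =
      t * (∑ X ∈ F, w X) ^ 2 + n * ∑ X ∈ F, w X ^ 2 := by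
  classical
  have e1 : ∀ q : Fin v, (∑ X ∈ F, if q ∈ X then w X else 0) ^ 2 =
      ∑ X ∈ F, ∑ Y ∈ F, (if q ∈ X then w X else 0) * (if q ∈ Y then w Y else 0) := by
    intro q
    rw [sq, Finset.sum_mul_sum]
  have e2 : ∀ X ∈ F, ∀ Y ∈ F,
      ∑ q : Fin v, (if q ∈ X then w X else 0) * (if q ∈ Y then w Y else 0) =
        t * (w X * w Y) + if X = Y then n * w X ^ 2 else 0 := by
    intro X hX Y hY
    have e3 : ∑ q : Fin v, (if q ∈ X then w X else 0) * (if q ∈ Y then w Y else 0) =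
        ((X ∩ Y).card : ℤ) * (w X * w Y) := by
      have e4 : ∀ q : Fin v, (if q ∈ X then w X else 0) * (if q ∈ Y then w Y else 0) =
          if q ∈ X ∩ Y then w X * w Y else 0 := by
        intro q
        by_cases hx : q ∈ X <;> by_cases hy : q ∈ Y <;> simp [hx, hy]
      rw [Finset.sum_congr rfl fun q _ => e4 q, Finset.sum_ite_mem, Finset.univ_inter,
        Finset.sum_const, nsmul_eq_mul]
    rw [e3]
    by_cases h : X = Y
    · subst h
      rw [Finset.inter_self, h1 X hX, if_pos rfl]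
      push_cast
      ring
    · rw [h2 X hX Y hY h, if_neg h, add_zero]
  rw [Finset.sum_congr rfl fun q _ => e1 q, Finset.sum_comm]
  have e5 : ∀ X ∈ F, ∑ q : Fin v, ∑ Y ∈ F,
      (if q ∈ X then w X else 0) * (if q ∈ Y then w Y else 0) =
        t * (w X * ∑ Y ∈ F, w Y) + n * w X ^ 2 := by
    intro X hX
    rw [Finset.sum_comm, Finset.sum_congr rfl fun Y hY => e2 X hX Y hY, Finset.sum_add_distrib,
      ← Finset.mul_sum, ← Finset.mul_sum, Finset.sum_ite_eq, if_pos hX]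
  rw [Finset.sum_congr rfl e5, Finset.sum_add_distrib, ← Finset.mul_sum, ← Finset.sum_mul,
    ← Finset.mul_sum, sq]

private theorem E1_thr3 (A : Finset (Finset (Fin v))) (x y z : Fin v) :
    thr3 A x y z = (thr A x y).filter fun X => z ∈ X := by
  ext X
  rw [mem_thr3, Finset.mem_filter, mem_thr]
  tauto

theorem centroid (ht : 2 ≤ t) (hA : IsFam [0, 1, t] (n + t) A) (hxy : x ≠ y) (z : Fin v) :
    (thr3 A x y z).card * ((thr A x y).card - (thr3 A x y z).card) ≤ n * (thr A x y).card := by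
  classical
  obtain ⟨F, hF⟩ : ∃ F, F = thr A x y := ⟨_, rfl⟩
  rw [E1_thr3, ← hF]
  obtain ⟨r, hr⟩ : ∃ r, r = (F.filter fun X => z ∈ X).card := ⟨_, rfl⟩
  obtain ⟨s, hs⟩ : ∃ s, s = (F.filter fun X => ¬ z ∈ X).card := ⟨_, rfl⟩
  have hm : F.card = r + s := by
    rw [hr, hs, Finset.card_filter_add_card_filter_not]
  rw [← hr, hm, Nat.add_sub_cancel_left]
  have hmem : ∀ X ∈ F, X ∈ A ∧ x ∈ X ∧ y ∈ X := fun X hX => mem_thr.1 (hF ▸ hX)
  have hq := E1_quad (n := n) (t := t) (F := F) (fun X hX => hA.1 X (hmem X hX).1)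
    (fun X hX Y hY h => interT ht hA (hmem X hX).1 (hmem Y hY).1 h hxy (hmem X hX).2.1
      (hmem X hX).2.2 (hmem Y hY).2.1 (hmem Y hY).2.2)
    (fun X => if z ∈ X then (s : ℤ) else -(r : ℤ))
  have w1 : ∑ X ∈ F, (if z ∈ X then (s : ℤ) else -(r : ℤ)) = 0 := by
    rw [Finset.sum_ite, Finset.sum_const, Finset.sum_const, ← hr, ← hs, nsmul_eq_mul,
      nsmul_eq_mul]
    ring
  have w2 : ∑ X ∈ F, (if z ∈ X then (s : ℤ) else -(r : ℤ)) ^ 2 = r * s * (r + s) := by
    have e : ∀ X ∈ F, (if z ∈ X then (s : ℤ) else -(r : ℤ)) ^ 2 =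
        if z ∈ X then (s : ℤ) ^ 2 else (r : ℤ) ^ 2 := by
      intro X _
      split_ifs <;> ring
    rw [Finset.sum_congr rfl e, Finset.sum_ite, Finset.sum_const, Finset.sum_const, ← hr, ← hs,
      nsmul_eq_mul, nsmul_eq_mul]
    ring
  have w3 : ∑ X ∈ F, (if z ∈ X then (if z ∈ X then (s : ℤ) else -(r : ℤ)) else 0) = r * s := by
    have e : ∀ X ∈ F, (if z ∈ X then (if z ∈ X then (s : ℤ) else -(r : ℤ)) else 0) =
        if z ∈ X then (s : ℤ) else 0 := by
      intro X _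
      split_ifs <;> rfl
    rw [Finset.sum_congr rfl e, Finset.sum_ite, Finset.sum_const, Finset.sum_const_zero, ← hr,
      nsmul_eq_mul, add_zero]
  have hz : (∑ X ∈ F, (if z ∈ X then (if z ∈ X then (s : ℤ) else -(r : ℤ)) else 0)) ^ 2 ≤
      ∑ q : Fin v, (∑ X ∈ F, if q ∈ X then (if z ∈ X then (s : ℤ) else -(r : ℤ)) else 0) ^ 2 :=
    Finset.single_le_sum
      (f := fun q : Fin v =>
        (∑ X ∈ F, if q ∈ X then (if z ∈ X then (s : ℤ) else -(r : ℤ)) else 0) ^ 2)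
      (fun q _ => sq_nonneg _) (Finset.mem_univ z)
  rw [hq, w1, w2, w3] at hz
  have hP : ((r * s : ℕ) : ℤ) ≤ ((n * (r + s) : ℕ) : ℤ) := by
    push_cast
    rcases Nat.eq_zero_or_pos (r * s) with h0 | h0
    · have h1 : (r : ℤ) * s = 0 := by exact_mod_cast h0
      rw [h1]
      positivity
    · have h1 : (0 : ℤ) < r * s := by exact_mod_cast h0
      by_contra hcon
      push Not at hcon
      nlinarith
  exact_mod_cast hP

theorem dichotomy (ht : 2 ≤ t) (hA : IsFam [0, 1, t] (n + t) A) (hxy : x ≠ y)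
    (hm : (n + 2) ^ 2 < 2 * (thr A x y).card) (z : Fin v) :
    (thr3 A x y z).card ≤ n + 1 ∨ (thr A x y).card ≤ (thr3 A x y z).card + (n + 1) := by
  have hc := centroid ht hA hxy z
  by_contra hcon
  push Not at hcon
  obtain ⟨h1, h2⟩ := hcon
  generalize (thr3 A x y z).card = r at hc h1 h2
  generalize (thr A x y).card = m at hc h2 hm
  obtain ⟨s, rfl⟩ : ∃ s, m = r + s := ⟨m - r, by omega⟩
  rw [Nat.add_sub_cancel_left] at hc
  obtain ⟨a, rfl⟩ : ∃ a, r = n + 2 + a := ⟨r - (n + 2), by omega⟩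
  obtain ⟨b, rfl⟩ : ∃ b, s = n + 2 + b := ⟨s - (n + 2), by omega⟩
  nlinarith [Nat.zero_le (a * b)]

end MP44257e
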