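import Pool.Agent.H.MP_44257e_co.UE.E1

/-!
# The kernel of a bad pair

`sum_thrT`: for `X ∈ thr A x y`: `∑_{q ∈ X} r_q = (n + t) + (m - 1) t` (`m = (thr A x y).card`,
`r_q = (thr3 A x y q).card`; count the pairs `(q, X')`, `q ∈ X ∩ X'`).

`exists_ker`: `m ≥ n^2 - (t-4) n + 1`, `2 t ≤ n`, so `m ≥ n^2/2 + 4 n + 1`; hence `(n+2)^2 < 2 m` and
`(t + 1)(n + 1) + 1 < m`. Call `q` big if `r_q > n + 1`, then `r_q ≥ m - n - 1` (`dichotomy`). Let
`b X` be the number of the big points of `X ∈ thr A x y`.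
`b X ≥ t - 1`: else `t (m - 1) + n + t ≤ (t - 2) m + (n + 2)(n + 1)` (all big `r ≤ m`, others
`≤ n + 1`), i.e. `2 m + n ≤ (n+2)(n+1)`, a contradiction.
`b X ≤ t`: else `(t + 1)(m - n - 1) + (n - 1) ≤ t (m - 1) + n + t` (members of `X` have `r ≥ 1`), so
`m ≤ (t + 1)(n + 1) + 1`, a contradiction.
Let `β` be the set of all big points; `|β| (m - n - 1) ≤ ∑_X b X ≤ t m` gives `|β| ≤ t`.
If `|β| ≤ t - 1`: every `X` contains `t - 1` big points, so `K = β` has `t - 1` points and is in every
`X`; `x, y` are big (`r = m`); points off `K` have `r ≤ n + 1`: `Ker`.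
If `|β| = t`: not all `X` contain `β` (that would be `SunT`); let `F` contain only `t - 1` of its points.
The number `e` of the `X ⊇ β` is at least `m - t (n + 1) > n + 1` (every big point is missed by at
most `n + 1` members); two of them share exactly `β`; `F` meets each of them in `t` points, so in
`t - 1` points of `β` and a point of `F \ β`, different for different `X`: `e ≤ |F \ β| = n + 1`, a
contradiction. (If `thr A x y` is empty, `m = 0`, which is excluded.)
-/

set_option autoImplicit false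

namespace MP44257e

variable {v n t : ℕ} {A : Finset (Finset (Fin v))} {x y : Fin v}

theorem sum_thrT (ht : 2 ≤ t) (hA : IsFam [0, 1, t] (n + t) A) (hxy : x ≠ y)
    {X : Finset (Fin v)} (hX : X ∈ thr A x y) :
    ∑ q ∈ X, (thr3 A x y q).card + t = n + t + (thr A x y).card * t := by
  have h0 := mem_thr.1 hX
  have e1 : ∀ q, (thr3 A x y q).card = ∑ Y ∈ thr A x y, if q ∈ Y then 1 else 0 := by
    intro q
    rw [← Finset.card_filter]
    congr 1
    ext Y
    rw [mem_thr3, Finset.mem_filter, mem_thr]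
    tauto
  have e2 : ∑ q ∈ X, (thr3 A x y q).card = ∑ Y ∈ thr A x y, (X ∩ Y).card := by
    rw [Finset.sum_congr rfl fun q _ => e1 q, Finset.sum_comm]
    refine Finset.sum_congr rfl fun Y _ => ?_
    rw [← Finset.card_filter, Finset.filter_mem_eq_inter]
  rw [e2, ← Finset.add_sum_erase (thr A x y) _ hX, Finset.inter_self, hA.1 X h0.1]
  have e3 : ∑ Y ∈ (thr A x y).erase X, (X ∩ Y).card = ∑ Y ∈ (thr A x y).erase X, t := by
    refine Finset.sum_congr rfl fun Y hY => ?_
    have h1 := mem_thr.1 (Finset.mem_of_mem_erase hY)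
    exact interT ht hA h0.1 h1.1 (Finset.ne_of_mem_erase hY).symm hxy h0.2.1 h0.2.2 h1.2.1 h1.2.2
  rw [e3, Finset.sum_const, smul_eq_mul, Finset.card_erase_of_mem hX]
  have h2 : 0 < (thr A x y).card := Finset.card_pos.2 ⟨X, hX⟩
  obtain ⟨m, hm⟩ : ∃ m, (thr A x y).card = m + 1 := ⟨(thr A x y).card - 1, by omega⟩
  rw [hm, Nat.add_sub_cancel]
  ring

end MP44257e
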