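import Pool.Agent.H.MP_44257e_co.UE.E2b

/-!
# The members through `x` for a bad pair `x, y`

`sum_off`: `∑_{q ∈ X \ K} r_q = m + n` for `X ∈ thr A x y` (`sum_thrT`; `r_q = m` on `K`, `|K| = t - 1`).
`card_le_M`: `X \ K` has `n + 1` points with `r ≤ n + 1`.

`closedT`: let `κ = |B ∩ K|`, `1 ≤ κ ≤ t - 2` (`x ∈ B`, `y ∉ B`), `S0 = (B ∩ Yu A x y) \ K`. For
`X ∈ thr A x y`: `X ≠ B`, `x ∈ X ∩ B`, so `|X ∩ B|` is 1 or `t`, `|X ∩ S0| ∈ {1 - κ, t - κ}`.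
`κ ≥ 2`: `|X ∩ S0| = c = t - κ ≥ 2` for all `X`; `c m = ∑_{p ∈ S0} r_p ≤ (n + 1)(n + c)`
(`|S0| ≤ n + t - κ`), so `2 (m - n - 1) ≤ n (n + 1)`: contradiction to `m ≥ n^2/2 + 4 n + 1`.
`κ = 1`: let `p ∈ S0`. For any `q ∈ S0`: each of the `r_q` members through `x, y, q` has `t - 2` more
points in `S0`, different members share only `K` and `q`, so `1 + r_q (t - 2) ≤ |S0| ≤ n + t - 1`,
i.e. `(r_q - 1)(t - 2) ≤ n`. Take `X ∋ x, y, p`: `|X ∩ S0| = t - 1`, and `sum_off`: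
`m + n ≤ (n + 2 - t)(n + 1) + ∑_{q ∈ X ∩ S0} r_q`, so
`(t - 2)(m + n) ≤ (t - 2)(n + 2 - t)(n + 1) + (t - 1)(t - 2 + n)`; with
`m ≥ n^2 - n (t - 4) + 1` this gives `n (t - 3) ≤ 0`, a contradiction.
-/

set_option autoImplicit false

namespace MP44257e

variable {v n t : ℕ} {A : Finset (Finset (Fin v))} {x y : Fin v} {K : Finset (Fin v)}

theorem sum_off (ht : 4 ≤ t) (hA : IsFam [0, 1, t] (n + t) A) (hxy : x ≠ y)
    (hK : Ker n t A x y K) {X : Finset (Fin v)} (hX : X ∈ thr A x y) :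
    ∑ q ∈ X \ K, (thr3 A x y q).card = (thr A x y).card + n := by
  have h1 := sum_thrT (by omega : 2 ≤ t) hA hxy hX
  have hKX : K ⊆ X := hK.2.2.2.1 X hX
  have h2 := Finset.sum_sdiff (f := fun q => (thr3 A x y q).card) hKX
  have h3 : ∑ q ∈ K, (thr3 A x y q).card = K.card * (thr A x y).card := by
    rw [← smul_eq_mul, ← Finset.sum_const]
    refine Finset.sum_congr rfl fun q hq => ?_
    congr 1
    ext X'
    rw [mem_thr3, mem_thr]
    constructor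
    · rintro ⟨a1, a2, a3, -⟩
      exact ⟨a1, a2, a3⟩
    · rintro ⟨a1, a2, a3⟩
      exact ⟨a1, a2, a3, hK.2.2.2.1 X' (mem_thr.2 ⟨a1, a2, a3⟩) hq⟩
  have h4 : (thr A x y).card * t = K.card * (thr A x y).card + (thr A x y).card := by
    rw [← hK.1]
    ring
  omega

theorem card_le_M (ht : 4 ≤ t) (hA : IsFam [0, 1, t] (n + t) A) (hxy : x ≠ y)
    (hK : Ker n t A x y K) : (thr A x y).card ≤ n ^ 2 + n + 1 := by
  rcases Finset.eq_empty_or_nonempty (thr A x y) with h0 | ⟨X, hX⟩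
  · rw [h0, Finset.card_empty]
    exact Nat.zero_le _
  have h1 := sum_off ht hA hxy hK hX
  have hKX : K ⊆ X := hK.2.2.2.1 X hX
  have h2 : (X \ K).card = n + 1 := by
    have h3 := Finset.card_sdiff_add_card_eq_card hKX
    have h4 := hA.1 X (mem_thr.1 hX).1
    have h5 := hK.1
    omega
  have h3 : ∑ q ∈ X \ K, (thr3 A x y q).card ≤ (X \ K).card • (n + 1) :=
    Finset.sum_le_card_nsmul _ _ _ fun q hq => hK.2.2.2.2 q (Finset.mem_sdiff.1 hq).2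
  rw [h1, h2, smul_eq_mul] at h3
  nlinarith

end MP44257e
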