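import Pool.Agent.H.MP_44257e_co.UE.E3

/-!
# The members through `x` for a bad pair `x, y`

`sum_off`: `∑_{q ∈ X \ K} r_q = m + n` for `X ∈ thr A x y` (`sum_thrT`; `r_q = m` on `K`, `|K| = t - 1`).
`card_le_M`: `X \ K` has `n + 1` points with `r ≤ n + 1`.

`closedT`: let `κ = |B ∩ K|`, `1 ≤ κ ≤ t - 2` (`x ∈ B`, `y ∉ B`), `S0 = (B ∩ Yu A x y) \ K`. For
`X ∈ thr A x y`: `X ≠ B`, `x ∈ X ∩ B`, so `|X ∩ B|` is 1 or `t`, `|X ∩ S0| ∈ {1 - κ, t - κ}`.
`κ ≥ 2`: `|X ∩ S0| = c = t - κ ≥ 2` for all `X`; `c m = ∑_{p ∈ S0} r_p ≤ (n + 1)(n + c)`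
(`|S0| ≤ n + t - κ`), so `2 (m - n - 1) ≤ n (n + 1)`: contradiction to `m ≥ n^2/2 + 4 n + 1`.
`κ = 1`: let `p ∈ S0`. For any `q ∈ S0`: each of the `r_q` members through `x, y, q` has `t - 2` more
points in `S0`, different members share only `K` and `q`, so `1 + r_q (t - 2) ≤ |S0| ≤ n + t - 1`,
i.e. `(r_q - 1)(t - 2) ≤ n`. Take `X ∋ x, y, p`: `|X ∩ S0| = t - 1`, and `sum_off`:
`m + n ≤ (n + 2 - t)(n + 1) + ∑_{q ∈ X ∩ S0} r_q`, so
`(t - 2)(m + n) ≤ (t - 2)(n + 2 - t)(n + 1) + (t - 1)(t - 2 + n)`; with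
`m ≥ n^2 - n (t - 4) + 1` this gives `n (t - 3) ≤ 0`, a contradiction.
-/

set_option autoImplicit false

namespace MP44257e

variable {v n t : ℕ} {A : Finset (Finset (Fin v))} {x y : Fin v} {K : Finset (Fin v)}

private theorem E3b_thr3 (A : Finset (Finset (Fin v))) (x y q : Fin v) :
    thr3 A x y q = (thr A x y).filter fun X => q ∈ X := by
  ext X
  rw [mem_thr3, Finset.mem_filter, mem_thr]
  tauto

private theorem E3b_dc (A : Finset (Finset (Fin v))) (x y : Fin v) (S : Finset (Fin v)) :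
    ∑ q ∈ S, (thr3 A x y q).card = ∑ X ∈ thr A x y, (X ∩ S).card := by
  simp only [E3b_thr3, Finset.card_filter]
  rw [Finset.sum_comm]
  refine Finset.sum_congr rfl fun X _ => ?_
  rw [← Finset.card_filter, Finset.filter_mem_eq_inter, Finset.inter_comm]

private theorem E3b_m (ht : 4 ≤ t) (hn : 2 * t ≤ n) {m : ℕ} (hm : n ^ 2 + 1 ≤ m + n * (t - 4)) :
    n ^ 2 + 8 * n + 2 ≤ 2 * m := by
  obtain ⟨u, rfl⟩ := Nat.exists_eq_add_of_le ht
  rw [Nat.add_sub_cancel_left] at hm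
  nlinarith

private theorem E3b_c {m c s0 : ℕ} (hn : 0 < n) (hm2 : n ^ 2 + 8 * n + 2 ≤ 2 * m)
    (hc : 2 ≤ c) (hs : s0 ≤ n + c) (h : m * c ≤ s0 * (n + 1)) : False := by
  have h1 : n + 1 ≤ m := by nlinarith
  obtain ⟨d, rfl⟩ := Nat.exists_eq_add_of_le h1
  have h2 : s0 * (n + 1) ≤ (n + c) * (n + 1) := Nat.mul_le_mul_right _ hs
  have h3 : 2 * d ≤ c * d := Nat.mul_le_mul_right d hc
  nlinarith

private theorem E3b_f {m e s1 s2 : ℕ} (ht : 4 ≤ t) (hn : 0 < n)
    (hm : n ^ 2 + 1 ≤ m + n * (t - 4)) (he : e + (t - 1) = n + 1) (hs : s1 + s2 = m + n)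
    (h1 : s1 ≤ e * (n + 1)) (h2 : s2 * (t - 2) ≤ (t - 1) * (n + t - 2)) : False := by
  obtain ⟨u, rfl⟩ := Nat.exists_eq_add_of_le ht
  rw [Nat.add_sub_cancel_left] at hm
  have e1 : 4 + u - 1 = u + 3 := by omega
  have e2 : 4 + u - 2 = u + 2 := by omega
  have e3 : n + (4 + u) - 2 = n + u + 2 := by omega
  rw [e1] at he
  rw [e1, e2, e3] at h2
  have hne : n = e + u + 2 := by omega
  have k1 := Nat.mul_le_mul_left (u + 2) hm
  have k2 := Nat.mul_le_mul_left (u + 2) h1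
  have k3 : (u + 2) * (s1 + s2) = (u + 2) * (m + n) := by rw [hs]
  subst hne
  have k4 : 0 < (e + u + 2) * (u + 1) := by positivity
  nlinarith

theorem closedT (ht : 4 ≤ t) (hn : 2 * t ≤ n) (hA : IsFam [0, 1, t] (n + t) A)
    (hb : BadT n t A x y) (hK : Ker n t A x y K) {B : Finset (Fin v)} (hB : B ∈ A) (hx : x ∈ B)
    (hy : y ∉ B) : B ∩ Yu A x y = {x} := by
  classical
  obtain ⟨hxy, -, hm⟩ := hb
  have hK' := hK
  obtain ⟨hKc, hxK, hyK, hKs, hKr⟩ := hK
  have hm2 := E3b_m ht hn hm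
  have hn0 : 0 < n := by omega
  have hpos : 0 < (thr A x y).card := by omega
  obtain ⟨X0, hX0⟩ := Finset.card_pos.1 hpos
  have hYu : ∀ X ∈ thr A x y, X ⊆ Yu A x y := by
    intro X hX q hq
    obtain ⟨h1, h2, h3⟩ := mem_thr.1 hX
    exact mem_Yu.2 ⟨X, h1, h2, h3, hq⟩
  obtain ⟨S, hS⟩ : ∃ S, S = (B ∩ Yu A x y) \ K := ⟨_, rfl⟩
  have hSmem : ∀ q, q ∈ S ↔ (q ∈ B ∧ q ∈ Yu A x y) ∧ q ∉ K := by
    intro q
    rw [hS, Finset.mem_sdiff, Finset.mem_inter]
  have hdisj : Disjoint (B ∩ K) S := by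
    rw [Finset.disjoint_left]
    intro q hq hq'
    exact ((hSmem q).1 hq').2 (Finset.mem_inter.1 hq).2
  have hScard : (B ∩ K).card + S.card ≤ n + t := by
    rw [← hA.1 B hB, ← Finset.card_union_of_disjoint hdisj]
    refine Finset.card_le_card ?_
    intro q hq
    rcases Finset.mem_union.1 hq with h | h
    · exact (Finset.mem_inter.1 h).1
    · exact ((hSmem q).1 h).1.1
  have hsplit : ∀ X ∈ thr A x y, (X ∩ B).card = (B ∩ K).card + (X ∩ S).card := by
    intro X hX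
    have h1 : X ∩ B = (B ∩ K) ∪ (X ∩ S) := by
      ext q
      rw [Finset.mem_union, Finset.mem_inter, Finset.mem_inter, Finset.mem_inter, hSmem]
      constructor
      · rintro ⟨h1, h2⟩
        by_cases h3 : q ∈ K
        · exact Or.inl ⟨h2, h3⟩
        · exact Or.inr ⟨h1, ⟨h2, hYu X hX h1⟩, h3⟩
      · rintro (⟨h1, h2⟩ | ⟨h1, ⟨h2, -⟩, -⟩)
        · exact ⟨hKs X hX h2, h1⟩
        · exact ⟨h1, h2⟩
    rw [h1, Finset.card_union_of_disjoint]
    exact Finset.disjoint_of_subset_right Finset.inter_subset_right hdisj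
  have hXB : ∀ X ∈ thr A x y, (X ∩ B).card = 1 ∨ (X ∩ B).card = t := by
    intro X hX
    obtain ⟨h1, h2, h3⟩ := mem_thr.1 hX
    have hne : X ≠ B := by
      rintro rfl
      exact hy h3
    have h5 := hA.2 X h1 B hB hne
    have h6 : 0 < (X ∩ B).card := Finset.card_pos.2 ⟨x, Finset.mem_inter.2 ⟨h2, hx⟩⟩
    simp only [List.mem_cons, List.not_mem_nil, or_false] at h5
    omega
  have hκ1 : 1 ≤ (B ∩ K).card := Finset.card_pos.2 ⟨x, Finset.mem_inter.2 ⟨hx, hxK⟩⟩
  have hκ2 : (B ∩ K).card + 2 ≤ t := by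
    have h1 : B ∩ K ⊆ K.erase y := by
      intro q hq
      obtain ⟨h2, h3⟩ := Finset.mem_inter.1 hq
      refine Finset.mem_erase.2 ⟨?_, h3⟩
      rintro rfl
      exact hy h2
    have h2 := Finset.card_le_card h1
    rw [Finset.card_erase_of_mem hyK] at h2
    omega
  have hSr : ∑ q ∈ S, (thr3 A x y q).card ≤ S.card * (n + 1) := by
    rw [← smul_eq_mul, ← Finset.sum_const]
    exact Finset.sum_le_sum fun q hq => hKr q ((hSmem q).1 hq).2
  have hκ : (B ∩ K).card = 1 := by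
    by_contra hne
    have h2 : ∀ X ∈ thr A x y, (X ∩ S).card = t - (B ∩ K).card := by
      intro X hX
      have h3 := hsplit X hX
      have h4 := hXB X hX
      omega
    rw [E3b_dc, Finset.sum_const_nat h2] at hSr
    exact E3b_c hn0 hm2 (c := t - (B ∩ K).card) (by omega) (s0 := S.card) (by omega) hSr
  have hS0 : S = ∅ := by
    rw [Finset.eq_empty_iff_forall_notMem]
    intro p hp
    have hXS : ∀ X ∈ thr A x y, ∀ q ∈ S, q ∈ X → (X ∩ S).card = t - 1 := by
      intro X hX q hq hqX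
      have h3 := hsplit X hX
      have h4 := hXB X hX
      have h5 : 0 < (X ∩ S).card := Finset.card_pos.2 ⟨q, Finset.mem_inter.2 ⟨hqX, hq⟩⟩
      omega
    have hrq : ∀ q ∈ S, (thr3 A x y q).card * (t - 2) ≤ n + t - 2 := by
      intro q hq
      have h1 : ∀ X ∈ thr3 A x y q, ((X ∩ S).erase q).card = t - 2 := by
        intro X hX
        obtain ⟨h2, h3, h4, h5⟩ := mem_thr3.1 hX
        rw [Finset.card_erase_of_mem (Finset.mem_inter.2 ⟨h5, hq⟩),
          hXS X (mem_thr.2 ⟨h2, h3, h4⟩) q hq h5]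
        omega
      have h2 : ∀ X ∈ thr3 A x y q, ∀ Y ∈ thr3 A x y q, X ≠ Y →
          Disjoint ((X ∩ S).erase q) ((Y ∩ S).erase q) := by
        intro X hX Y hY hne
        obtain ⟨a1, a2, a3, a4⟩ := mem_thr3.1 hX
        obtain ⟨b1, b2, b3, b4⟩ := mem_thr3.1 hY
        rw [Finset.disjoint_left]
        intro z hz hz'
        obtain ⟨c1, c2⟩ := Finset.mem_erase.1 hz
        obtain ⟨c3, c4⟩ := Finset.mem_inter.1 c2
        have c5 := (Finset.mem_inter.1 (Finset.mem_erase.1 hz').2).1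
        have h3 := interT_le (by omega) hA a1 b1 hne
        have h4 : insert z (insert q K) ⊆ X ∩ Y := by
          intro w hw
          rw [Finset.mem_insert, Finset.mem_insert] at hw
          rcases hw with rfl | rfl | hw
          · exact Finset.mem_inter.2 ⟨c3, c5⟩
          · exact Finset.mem_inter.2 ⟨a4, b4⟩
          · exact Finset.mem_inter.2 ⟨hKs X (mem_thr.2 ⟨a1, a2, a3⟩) hw,
              hKs Y (mem_thr.2 ⟨b1, b2, b3⟩) hw⟩
        have h5 := Finset.card_le_card h4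
        have h6 : q ∉ K := ((hSmem q).1 hq).2
        have h7 : z ∉ insert q K := by
          rw [Finset.mem_insert]
          rintro (h8 | h8)
          · exact c1 h8
          · exact ((hSmem z).1 c4).2 h8
        rw [Finset.card_insert_of_notMem h7, Finset.card_insert_of_notMem h6] at h5
        omega
      have h3 := Finset.card_biUnion h2
      rw [Finset.sum_const_nat h1] at h3
      have h4 : ((thr3 A x y q).biUnion fun X => (X ∩ S).erase q) ⊆ S.erase q := by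
        intro z hz
        obtain ⟨X, hX, hzX⟩ := Finset.mem_biUnion.1 hz
        obtain ⟨c1, c2⟩ := Finset.mem_erase.1 hzX
        exact Finset.mem_erase.2 ⟨c1, (Finset.mem_inter.1 c2).2⟩
      have h5 := Finset.card_le_card h4
      rw [h3, Finset.card_erase_of_mem hq] at h5
      omega
    obtain ⟨X, hXA, hxX, hyX, hpX⟩ := mem_Yu.1 ((hSmem p).1 hp).1.2
    have hX : X ∈ thr A x y := mem_thr.2 ⟨hXA, hxX, hyX⟩
    have hoff := sum_off ht hA hxy hK' hX
    have hsub : X ∩ S ⊆ X \ K := by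
      intro q hq
      obtain ⟨h1, h2⟩ := Finset.mem_inter.1 hq
      exact Finset.mem_sdiff.2 ⟨h1, ((hSmem q).1 h2).2⟩
    have hc1 : (X \ K).card = n + 1 := by
      rw [Finset.card_sdiff_of_subset (hKs X hX), hA.1 X hXA]
      omega
    have hc2 := hXS X hX p hp hpX
    have hc3 : ((X \ K) \ (X ∩ S)).card + (t - 1) = n + 1 := by
      have h1 := Finset.card_sdiff_add_card_eq_card hsub
      rw [hc1, hc2] at h1
      exact h1
    have hs := Finset.sum_sdiff (f := fun q => (thr3 A x y q).card) hsub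
    rw [hoff] at hs
    refine E3b_f ht hn0 hm hc3 hs ?_ ?_
    · rw [← smul_eq_mul, ← Finset.sum_const]
      exact Finset.sum_le_sum fun q hq =>
        hKr q (Finset.mem_sdiff.1 (Finset.mem_sdiff.1 hq).1).2
    · rw [Finset.sum_mul, ← hc2, ← smul_eq_mul, ← Finset.sum_const]
      exact Finset.sum_le_sum fun q hq => hrq q (Finset.mem_inter.1 hq).2
  obtain ⟨z, hz⟩ := Finset.card_eq_one.1 hκ
  have hzx : z = x := by
    have h1 : x ∈ B ∩ K := Finset.mem_inter.2 ⟨hx, hxK⟩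
    rw [hz, Finset.mem_singleton] at h1
    exact h1.symm
  ext q
  rw [Finset.mem_inter, Finset.mem_singleton]
  constructor
  · rintro ⟨h1, h2⟩
    by_cases h3 : q ∈ K
    · have h4 : q ∈ B ∩ K := Finset.mem_inter.2 ⟨h1, h3⟩
      rw [hz, Finset.mem_singleton] at h4
      rw [h4, hzx]
    · have h4 : q ∈ S := (hSmem q).2 ⟨⟨h1, h2⟩, h3⟩
      rw [hS0] at h4
      exact absurd h4 (Finset.notMem_empty q)
  · rintro rfl
    exact ⟨hx, hYu X0 hX0 (mem_thr.1 hX0).2.1⟩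

end MP44257e
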