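import Pool.Agent.H.MP_44257e_co.UE.E3b

/-!
# The sum at a point

`comp_sum`: for a bad pair `x, y` put `C = (Yu A x y).erase x`, `m = (thr A x y).card`. A member
through `x` and a point of `C` is in `thr A x y` (`closedT`). So `∑_{z ∈ C} (thr A x z).card =
(n + t - 1) m` (double counting in `thr A x y`). `m ≤ C.card`: the points of `Yu \ K` have `r ≤ n + 1`
and `∑ r = (n + 1) m` over them.

`comp_eq`: let `p ≠ x` be in `Yu A x y` and in `Yu A x y'`; a member through `x, y', p` contains `y`
(`closedT`), so `y' ∈ Yu A x y`, and then every member through `x, y'` contains `y`: so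
`thr A x y' ⊆ thr A x y`, `Yu A x y' ⊆ Yu A x y`; symmetric.

`point_sumT`: let `w z = (v - t) - n (thr A x z).card` (an integer). The sum of `w` over a component `C`
is `C.card (v - t) - n (n + t - 1) m > 0`, because `v - t > n (n + t - 1)` (`v - t > n^3 - (t-4) n^2`,
`2 t ≤ n`). Different components are disjoint (`comp_eq`). For `z` in no component: `z` is not bad
(a bad `z` is in its own component); if `SunT`, `w z ≥ 0` (`sunT_le`), if not `SunT`,
`(thr A x z).card ≤ n^2 - (t-4) n`, `w z > 0`. So the sum of `w` over `z ≠ x` is `≥ 0`; if it is 0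
then there is no component and all pairs are `SunT` with `w z = 0`.
-/

set_option autoImplicit false

namespace MP44257e

variable {v n t : ℕ} {A : Finset (Finset (Fin v))} {x y : Fin v}

private theorem E4_dc (F : Finset (Finset (Fin v))) (S : Finset (Fin v)) :
    ∑ z ∈ S, (F.filter fun X => z ∈ X).card = ∑ X ∈ F, (S ∩ X).card := by
  simp only [Finset.card_filter]
  rw [Finset.sum_comm]
  apply Finset.sum_congr rfl
  intro X _
  rw [← Finset.card_filter, Finset.filter_mem_eq_inter]

private theorem E4_thr3 (z : Fin v) : thr3 A x y z = (thr A x y).filter fun X => z ∈ X := by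
  ext X
  simp only [mem_thr3, mem_thr, Finset.mem_filter]
  tauto

theorem sunT_le (ht : 2 ≤ t) (hA : IsFam [0, 1, t] (n + t) A) (hxy : x ≠ y) (htv : t ≤ v)
    (h : SunT t A x y) : (thr A x y).card * n ≤ v - t := by
  obtain ⟨K, hK, hx, hy, hsub⟩ := h
  have hd : ∀ X ∈ thr A x y, ∀ Y ∈ thr A x y, X ≠ Y → Disjoint (X \ K) (Y \ K) := by
    intro X hX Y hY hXY
    have hX1 := mem_thr.1 hX
    have hY1 := mem_thr.1 hY
    have h1 := interT ht hA hX1.1 hY1.1 hXY hxy hX1.2.1 hX1.2.2 hY1.2.1 hY1.2.2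
    have h2 : K = X ∩ Y :=
      Finset.eq_of_subset_of_card_le (Finset.subset_inter (hsub X hX) (hsub Y hY)) (by omega)
    rw [Finset.disjoint_left]
    intro a ha hb
    rw [Finset.mem_sdiff] at ha hb
    apply ha.2
    rw [h2]
    exact Finset.mem_inter.2 ⟨ha.1, hb.1⟩
  have h1 : ((thr A x y).biUnion fun X => X \ K).card = (thr A x y).card * n := by
    rw [Finset.card_biUnion hd]
    have h2 : ∀ X ∈ thr A x y, (X \ K).card = n := by
      intro X hX
      rw [Finset.card_sdiff_of_subset (hsub X hX), hA.1 X (mem_thr.1 hX).1, hK]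
      omega
    rw [Finset.sum_congr rfl h2, Finset.sum_const, smul_eq_mul]
  have h3 : ((thr A x y).biUnion fun X => X \ K) ⊆ Finset.univ \ K := by
    intro a ha
    obtain ⟨X, _, hX⟩ := Finset.mem_biUnion.1 ha
    exact Finset.mem_sdiff.2 ⟨Finset.mem_univ a, (Finset.mem_sdiff.1 hX).2⟩
  have h4 := Finset.card_le_card h3
  rw [h1, Finset.card_sdiff_of_subset (Finset.subset_univ K), Finset.card_univ, Fintype.card_fin,
    hK] at h4
  exact h4

theorem comp_sum (ht : 4 ≤ t) (hn : 2 * t ≤ n) (hA : IsFam [0, 1, t] (n + t) A)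
    (hb : BadT n t A x y) :
    ∑ z ∈ (Yu A x y).erase x, (thr A x z).card = (n + t - 1) * (thr A x y).card ∧
      (thr A x y).card ≤ ((Yu A x y).erase x).card := by
  obtain ⟨K, hK⟩ := exists_ker ht hn hA hb
  obtain ⟨hK1, hxK, hyK, hKsub, hKr⟩ := hK
  have hYsub : ∀ X ∈ thr A x y, X ⊆ Yu A x y := by
    intro X hX q hq
    have h1 := mem_thr.1 hX
    exact mem_Yu.2 ⟨X, h1.1, h1.2.1, h1.2.2, hq⟩
  constructor
  · have h1 : ∀ z ∈ (Yu A x y).erase x, (thr A x z).card =
        ((thr A x y).filter fun X => z ∈ X).card := by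
      intro z hz
      rw [Finset.mem_erase] at hz
      congr 1
      ext X
      simp only [mem_thr, Finset.mem_filter]
      constructor
      · rintro ⟨h2, h3, h4⟩
        refine ⟨⟨h2, h3, ?_⟩, h4⟩
        by_contra h5
        have h6 := closedT ht hn hA hb ⟨hK1, hxK, hyK, hKsub, hKr⟩ h2 h3 h5
        have h7 : z ∈ X ∩ Yu A x y := Finset.mem_inter.2 ⟨h4, hz.2⟩
        rw [h6, Finset.mem_singleton] at h7
        exact hz.1 h7
      · rintro ⟨⟨h2, h3, _⟩, h4⟩
        exact ⟨h2, h3, h4⟩
    rw [Finset.sum_congr rfl h1, E4_dc]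
    have h2 : ∀ X ∈ thr A x y, ((Yu A x y).erase x ∩ X).card = n + t - 1 := by
      intro X hX
      have h3 := mem_thr.1 hX
      have h4 : (Yu A x y).erase x ∩ X = X.erase x := by
        ext q
        simp only [Finset.mem_inter, Finset.mem_erase]
        constructor
        · rintro ⟨⟨h5, _⟩, h6⟩
          exact ⟨h5, h6⟩
        · rintro ⟨h5, h6⟩
          exact ⟨⟨h5, hYsub X hX h6⟩, h6⟩
      rw [h4, Finset.card_erase_of_mem h3.2.1, hA.1 X h3.1]
    rw [Finset.sum_congr rfl h2, Finset.sum_const, smul_eq_mul, mul_comm]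
  · have h1 : ∑ z ∈ Yu A x y \ K, (thr3 A x y z).card = (n + 1) * (thr A x y).card := by
      rw [Finset.sum_congr rfl fun z _ => by rw [E4_thr3 z], E4_dc]
      have h2 : ∀ X ∈ thr A x y, ((Yu A x y \ K) ∩ X).card = n + 1 := by
        intro X hX
        have h3 := mem_thr.1 hX
        have h4 : (Yu A x y \ K) ∩ X = X \ K := by
          ext q
          simp only [Finset.mem_inter, Finset.mem_sdiff]
          constructor
          · rintro ⟨⟨_, h5⟩, h6⟩
            exact ⟨h6, h5⟩
          · rintro ⟨h5, h6⟩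
            exact ⟨⟨hYsub X hX h5, h6⟩, h5⟩
        rw [h4, Finset.card_sdiff_of_subset (hKsub X hX), hA.1 X h3.1]
        omega
      rw [Finset.sum_congr rfl h2, Finset.sum_const, smul_eq_mul, mul_comm]
    have h2 : ∑ z ∈ Yu A x y \ K, (thr3 A x y z).card ≤ (Yu A x y \ K).card * (n + 1) := by
      rw [← smul_eq_mul]
      exact Finset.sum_le_card_nsmul _ _ _ fun z hz => hKr z (Finset.mem_sdiff.1 hz).2
    rw [h1, mul_comm] at h2
    have h3 := Nat.le_of_mul_le_mul_right h2 (by omega)
    refine h3.trans (Finset.card_le_card ?_)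
    intro q hq
    rw [Finset.mem_sdiff] at hq
    exact Finset.mem_erase.2 ⟨fun h => hq.2 (h ▸ hxK), hq.1⟩

end MP44257e
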