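import Pool.Agent.H.MP_44257e_co.UE.E3b

/-!
# The sum at a point

`comp_sum`: for a bad pair `x, y` put `C = (Yu A x y).erase x`, `m = (thr A x y).card`. A member
through `x` and a point of `C` is in `thr A x y` (`closedT`). So `∑_{z ∈ C} (thr A x z).card =
(n + t - 1) m` (double counting in `thr A x y`). `m ≤ C.card`: the points of `Yu \ K` have `r ≤ n + 1`
and `∑ r = (n + 1) m` over them.

`comp_eq`: let `p ≠ x` be in `Yu A x y` and in `Yu A x y'`; a member through `x, y', p` contains `y`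
(`closedT`), so `y' ∈ Yu A x y`, and then every member through `x, y'` contains `y`: so
`thr A x y' ⊆ thr A x y`, `Yu A x y' ⊆ Yu A x y`; symmetric.

`point_sumT`: let `w z = (v - t) - n (thr A x z).card` (an integer). The sum of `w` over a component `C`
is `C.card (v - t) - n (n + t - 1) m > 0`, because `v - t > n (n + t - 1)` (`v - t > n^3 - (t-4) n^2`,
`2 t ≤ n`). Different components are disjoint (`comp_eq`). For `z` in no component: `z` is not bad
(a bad `z` is in its own component); if `SunT`, `w z ≥ 0` (`sunT_le`), if not `SunT`,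
`(thr A x z).card ≤ n^2 - (t-4) n`, `w z > 0`. So the sum of `w` over `z ≠ x` is `≥ 0`; if it is 0
then there is no component and all pairs are `SunT` with `w z = 0`.
-/

set_option autoImplicit false

namespace MP44257e

variable {v n t : ℕ} {A : Finset (Finset (Fin v))} {x y : Fin v}

private theorem E4b_key (ht : 4 ≤ t) (hn : 2 * t ≤ n) (hA : IsFam [0, 1, t] (n + t) A)
    (hb : BadT n t A x y) {X : Finset (Fin v)} (hX : X ∈ A) (hx : x ∈ X) {q : Fin v}
    (hq : q ∈ X) (hqx : q ≠ x) (hqY : q ∈ Yu A x y) : y ∈ X := by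
  by_contra hy
  obtain ⟨K, hK⟩ := exists_ker ht hn hA hb
  have h1 := closedT ht hn hA hb hK hX hx hy
  have h2 : q ∈ X ∩ Yu A x y := Finset.mem_inter.2 ⟨hq, hqY⟩
  rw [h1] at h2
  exact hqx (Finset.mem_singleton.1 h2)

theorem comp_eq (ht : 4 ≤ t) (hn : 2 * t ≤ n) (hA : IsFam [0, 1, t] (n + t) A) {y' : Fin v}
    (hb : BadT n t A x y) (hb' : BadT n t A x y') {p : Fin v} (hpx : p ≠ x)
    (hp : p ∈ Yu A x y) (hp' : p ∈ Yu A x y') : Yu A x y = Yu A x y' := by
  obtain ⟨B, hB, hBx, hBy', hBp⟩ := mem_Yu.1 hp'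
  have hBy : y ∈ B := E4b_key ht hn hA hb hB hBx hBp hpx hp
  have h1 : y' ∈ Yu A x y := mem_Yu.2 ⟨B, hB, hBx, hBy, hBy'⟩
  have h2 : y ∈ Yu A x y' := mem_Yu.2 ⟨B, hB, hBx, hBy', hBy⟩
  have h3 : thr A x y = thr A x y' := by
    ext X
    rw [mem_thr, mem_thr]
    constructor
    · rintro ⟨h4, h5, h6⟩
      exact ⟨h4, h5, E4b_key ht hn hA hb' h4 h5 h6 (Ne.symm hb.1) h2⟩
    · rintro ⟨h4, h5, h6⟩
      exact ⟨h4, h5, E4b_key ht hn hA hb h4 h5 h6 (Ne.symm hb'.1) h1⟩
  unfold Yu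
  rw [h3]

end MP44257e
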