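import Pool.Agent.H.MP_44257e_co.UE.E4
import Pool.Agent.H.MP_44257e_co.UE.E4b

/-!
# The sum at a point: `point_sumT`, see the header of `UE/E4.lean`.
-/

set_option autoImplicit false

namespace MP44257e

variable {v n t : ℕ} {A : Finset (Finset (Fin v))}

theorem point_sumT (ht : 4 ≤ t) (hn : 2 * t ≤ n) (hA : IsFam [0, 1, t] (n + t) A)
    (hv : n ^ 3 + t < v + (t - 4) * n ^ 2) (x : Fin v) :
    (∑ y ∈ Finset.univ.erase x, (thr A x y).card) * n ≤ (v - 1) * (v - t) ∧
    ((∑ y ∈ Finset.univ.erase x, (thr A x y).card) * n = (v - 1) * (v - t) →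
      ∀ y, y ≠ x → SunT t A x y ∧ (thr A x y).card * n = v - t) := by
  classical
  obtain ⟨s, rfl⟩ : ∃ s, t = s + 4 := ⟨t - 4, by omega⟩
  have es : s + 4 - 4 = s := by omega
  rw [es] at hv
  have hv1 : 1 ≤ v := by
    have := x.2
    omega
  have hns : 2 * (s : ℤ) + 8 ≤ n := by exact_mod_cast (by omega : 2 * s + 8 ≤ n)
  have hs0 : (0 : ℤ) ≤ s := Int.natCast_nonneg s
  have hn0 : (0 : ℤ) ≤ n := Int.natCast_nonneg n
  have hvZ : (n : ℤ) ^ 3 + (s + 4) < v + s * n ^ 2 := by exact_mod_cast hv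
  have hnn : (n : ℤ) * 8 ≤ n * (n - s) := mul_le_mul_of_nonneg_left (by linarith) hn0
  have hbig : (n : ℤ) * (n + s + 3) < v - (s + 4) := by
    have h1 : (n : ℤ) + s + 3 ≤ n * (n - s) := by linarith
    have h2 : (n : ℤ) * (n + s + 3) ≤ n * (n * (n - s)) := mul_le_mul_of_nonneg_left h1 hn0
    have h3 : (n : ℤ) * (n * (n - s)) = n ^ 3 - s * n ^ 2 := by ring
    linarith
  have hvt : s + 4 ≤ v := by
    have h1 : (0 : ℤ) ≤ n * (n + s + 3) := mul_nonneg hn0 (by linarith)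
    have h2 : ((s + 4 : ℕ) : ℤ) ≤ v := by
      push_cast
      linarith
    exact_mod_cast h2
  obtain ⟨w, hw⟩ : ∃ w : Fin v → ℤ, w = fun z => (v : ℤ) - (s + 4) - n * ((thr A x z).card : ℤ) :=
    ⟨_, rfl⟩
  -- the sum over a component
  have hcomp : ∀ y, BadT n (s + 4) A x y → 0 < ∑ z ∈ (Yu A x y).erase x, w z := by
    intro y hb
    obtain ⟨h1, h2⟩ := comp_sum ht hn hA hb
    have hm := hb.2.2
    rw [es] at hm
    have hmZ : (n : ℤ) ^ 2 + 1 ≤ ((thr A x y).card : ℤ) + n * s := by exact_mod_cast hm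
    have hm1 : (1 : ℤ) ≤ ((thr A x y).card : ℤ) := by
      have h3 : (0 : ℤ) ≤ n * (n - s) := le_trans (by positivity) hnn
      have h4 : (n : ℤ) * (n - s) = n ^ 2 - n * s := by ring
      linarith
    have e1 : n + (s + 4) - 1 = n + s + 3 := by omega
    rw [e1] at h1
    have h1Z : ∑ z ∈ (Yu A x y).erase x, ((thr A x z).card : ℤ) =
        ((n : ℤ) + s + 3) * ((thr A x y).card : ℤ) := by exact_mod_cast h1
    have h2Z : ((thr A x y).card : ℤ) ≤ (((Yu A x y).erase x).card : ℤ) := by exact_mod_cast h2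
    have e2 : ∑ z ∈ (Yu A x y).erase x, w z = (((Yu A x y).erase x).card : ℤ) *
        (v - (s + 4)) - n * (((n : ℤ) + s + 3) * ((thr A x y).card : ℤ)) := by
      rw [hw, Finset.sum_sub_distrib, Finset.sum_const, nsmul_eq_mul, ← Finset.mul_sum, h1Z]
    rw [e2]
    have hM : (0 : ℤ) ≤ v - (s + 4) := by
      have h1 : (0 : ℤ) ≤ n * (n + s + 3) := mul_nonneg hn0 (by linarith)
      linarith
    have h3 : ((thr A x y).card : ℤ) * (v - (s + 4)) ≤
        (((Yu A x y).erase x).card : ℤ) * (v - (s + 4)) := mul_le_mul_of_nonneg_right h2Z hM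
    have h4 : ((thr A x y).card : ℤ) * ((n : ℤ) * (n + s + 3)) <
        ((thr A x y).card : ℤ) * (v - (s + 4)) := mul_lt_mul_of_pos_left hbig (by linarith)
    have e3 : (n : ℤ) * (((n : ℤ) + s + 3) * ((thr A x y).card : ℤ)) =
        ((thr A x y).card : ℤ) * ((n : ℤ) * (n + s + 3)) := by ring
    rw [e3]
    linarith
  obtain ⟨P, hP⟩ : ∃ P : Finset (Fin v), ∀ y, y ∈ P ↔ BadT n (s + 4) A x y :=
    ⟨Finset.univ.filter fun y => BadT n (s + 4) A x y, fun y => by simp⟩
  obtain ⟨Q, hQ⟩ : ∃ Q, Q = P.image fun y => (Yu A x y).erase x := ⟨_, rfl⟩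
  have hdisj : (Q : Set (Finset (Fin v))).PairwiseDisjoint id := by
    intro T hT T' hT' hne
    rw [Finset.mem_coe, hQ, Finset.mem_image] at hT hT'
    obtain ⟨y, hy, rfl⟩ := hT
    obtain ⟨y', hy', rfl⟩ := hT'
    show Disjoint ((Yu A x y).erase x) ((Yu A x y').erase x)
    rw [Finset.disjoint_left]
    intro p hp hp'
    have h3 := Finset.mem_erase.1 hp
    have h4 := Finset.mem_erase.1 hp'
    exact hne (by rw [comp_eq ht hn hA ((hP y).1 hy) ((hP y').1 hy') h3.1 h3.2 h4.2])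
  have hQpos : ∀ T ∈ Q, 0 < ∑ z ∈ T, w z := by
    intro T hT
    rw [hQ, Finset.mem_image] at hT
    obtain ⟨y, hy, rfl⟩ := hT
    exact hcomp y ((hP y).1 hy)
  obtain ⟨U, hU⟩ : ∃ U, U = Q.biUnion id := ⟨_, rfl⟩
  have hUsum : ∑ z ∈ U, w z = ∑ T ∈ Q, ∑ z ∈ T, w z := by
    rw [hU, Finset.sum_biUnion hdisj]
    rfl
  have hUsub : U ⊆ Finset.univ.erase x := by
    intro q hq
    rw [hU, Finset.mem_biUnion] at hq
    obtain ⟨T, hT, hqT⟩ := hq
    rw [hQ, Finset.mem_image] at hT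
    obtain ⟨y, hy, rfl⟩ := hT
    exact Finset.mem_erase.2 ⟨(Finset.mem_erase.1 hqT).1, Finset.mem_univ _⟩
  have hbadU : ∀ z, BadT n (s + 4) A x z → z ∈ U := by
    intro z hb
    have hm := hb.2.2
    rw [es] at hm
    have hmZ : (n : ℤ) ^ 2 + 1 ≤ ((thr A x z).card : ℤ) + n * s := by exact_mod_cast hm
    have hm1 : (1 : ℤ) ≤ ((thr A x z).card : ℤ) := by
      have h3 : (0 : ℤ) ≤ n * (n - s) := le_trans (by positivity) hnn
      have h4 : (n : ℤ) * (n - s) = n ^ 2 - n * s := by ring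
      linarith
    have hm2 : 0 < (thr A x z).card := by exact_mod_cast hm1
    obtain ⟨X, hX⟩ := Finset.card_pos.1 hm2
    obtain ⟨h7, h8, h9⟩ := mem_thr.1 hX
    rw [hU, Finset.mem_biUnion]
    refine ⟨(Yu A x z).erase x, ?_, ?_⟩
    · rw [hQ]
      exact Finset.mem_image_of_mem _ ((hP z).2 hb)
    · exact Finset.mem_erase.2 ⟨hb.1.symm, mem_Yu.2 ⟨X, h7, h8, h9, h9⟩⟩
  have hrest : ∀ z, z ≠ x → z ∉ U → 0 ≤ w z ∧
      (w z = 0 → SunT (s + 4) A x z ∧ (thr A x z).card * n = v - (s + 4)) := by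
    intro z hzx hzU
    have hwz : w z = (v : ℤ) - (s + 4) - (((thr A x z).card * n : ℕ) : ℤ) := by
      rw [hw]
      push_cast
      ring
    by_cases hsun : SunT (s + 4) A x z
    · have h1 := sunT_le (by omega) hA hzx.symm hvt hsun
      constructor
      · rw [hwz]
        omega
      · intro h0
        refine ⟨hsun, ?_⟩
        rw [hwz] at h0
        omega
    · have hnb : ¬ BadT n (s + 4) A x z := fun hb => hzU (hbadU z hb)
      have h1 : (thr A x z).card + n * s ≤ n ^ 2 := by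
        by_contra hcon
        apply hnb
        refine ⟨hzx.symm, hsun, ?_⟩
        rw [es]
        omega
      have h1Z : ((thr A x z).card : ℤ) + n * s ≤ (n : ℤ) ^ 2 := by exact_mod_cast h1
      have h2 : (n : ℤ) * (((thr A x z).card : ℤ) + n * s) ≤ n * (n : ℤ) ^ 2 :=
        mul_le_mul_of_nonneg_left h1Z hn0
      have h3 : 0 < w z := by
        rw [hw]
        show 0 < (v : ℤ) - (s + 4) - n * ((thr A x z).card : ℤ)
        have e1 : (n : ℤ) * (((thr A x z).card : ℤ) + n * s) =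
            n * ((thr A x z).card : ℤ) + s * n ^ 2 := by ring
        have e2 : (n : ℤ) * (n : ℤ) ^ 2 = n ^ 3 := by ring
        rw [e1, e2] at h2
        linarith
      exact ⟨h3.le, fun h0 => absurd h0 h3.ne'⟩
  have htot : ∑ z ∈ Finset.univ.erase x, w z = ((v : ℤ) - 1) * (v - (s + 4)) -
      (((∑ y ∈ Finset.univ.erase x, (thr A x y).card) * n : ℕ) : ℤ) := by
    have e1 : ((Finset.univ.erase x).card : ℤ) = (v : ℤ) - 1 := by
      rw [Finset.card_erase_of_mem (Finset.mem_univ x), Finset.card_univ, Fintype.card_fin,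
        Nat.cast_sub hv1, Nat.cast_one]
    rw [hw, Finset.sum_sub_distrib, Finset.sum_const, nsmul_eq_mul, ← Finset.mul_sum, e1]
    push_cast
    ring
  have hsplit := Finset.sum_sdiff (f := w) hUsub
  have hR : 0 ≤ ∑ z ∈ Finset.univ.erase x \ U, w z := by
    refine Finset.sum_nonneg fun z hz => ?_
    rw [Finset.mem_sdiff, Finset.mem_erase] at hz
    exact (hrest z hz.1.1 hz.2).1
  have hU0 : 0 ≤ ∑ z ∈ U, w z := by
    rw [hUsum]
    exact Finset.sum_nonneg fun T hT => (hQpos T hT).le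
  have hcast : ((((v - 1) * (v - (s + 4))) : ℕ) : ℤ) = ((v : ℤ) - 1) * (v - (s + 4)) := by
    rw [Nat.cast_mul, Nat.cast_sub hv1, Nat.cast_sub hvt]
    push_cast
    ring
  refine ⟨?_, fun heq => ?_⟩
  · have h1 : (((∑ y ∈ Finset.univ.erase x, (thr A x y).card) * n : ℕ) : ℤ) ≤
        ((((v - 1) * (v - (s + 4))) : ℕ) : ℤ) := by
      rw [hcast]
      linarith
    exact_mod_cast h1
  · have h0 : ∑ z ∈ Finset.univ.erase x, w z = 0 := by
      rw [htot, heq, hcast, sub_self]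
    have hQe : Q = ∅ := by
      by_contra hne
      obtain ⟨T, hT⟩ := Finset.nonempty_iff_ne_empty.2 hne
      have h1 : 0 < ∑ z ∈ U, w z := by
        rw [hUsum]
        exact Finset.sum_pos hQpos ⟨T, hT⟩
      linarith
    have hUe : U = ∅ := by
      rw [hU, hQe]
      rfl
    intro y hyx
    have hyU : y ∉ U := by
      rw [hUe]
      exact Finset.notMem_empty _
    refine (hrest y hyx hyU).2 ?_
    have hnn' : ∀ z ∈ Finset.univ.erase x, 0 ≤ w z := by
      intro z hz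
      refine (hrest z (Finset.mem_erase.1 hz).1 ?_).1
      rw [hUe]
      exact Finset.notMem_empty _
    exact (Finset.sum_eq_zero_iff_of_nonneg hnn').1 h0 y
      (Finset.mem_erase.2 ⟨hyx, Finset.mem_univ _⟩)

end MP44257e
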