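import Pool.Agent.H.MP_44257e_co.UE.E0

/-!
# Double counting, and designs from sunflower pairs (general `t`)

Copy of `UB/K1.lean` (`total`), `UB/K2.lean` (`des_of_sun`), `UB/K3.lean` (`des_thr`).
`desL_of_sun`: choose `L x y` = the kernel of `SunT`; the `(thr A x y).card` members through `x, y`
minus the kernel are disjoint (`interT`: they share `t` points, so just the kernel) with `n` points
each, `(thr A x y).card * n = v - t`, so they cover all the points off the kernel.
`desL_thr`: the members through `x, y` contain `L x y`, share just `L x y`, and cover all points.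
-/

set_option autoImplicit false

namespace MP44257e

variable {v n t : ℕ} {A : Finset (Finset (Fin v))}

theorem totalT {k : ℕ} {T : List ℕ} (hA : IsFam T k A) :
    ∑ x, ∑ y ∈ Finset.univ.erase x, (thr A x y).card = A.card * (k * (k - 1)) := by
  classical
  have h1 : ∀ x y : Fin v, (thr A x y).card = ∑ X ∈ A, if x ∈ X ∧ y ∈ X then 1 else 0 := by
    intro x y
    unfold thr
    rw [Finset.card_filter]
  have h2 : ∑ x, ∑ y ∈ Finset.univ.erase x, (thr A x y).card =
      ∑ X ∈ A, ∑ x : Fin v, ∑ y ∈ Finset.univ.erase x, if x ∈ X ∧ y ∈ X then 1 else 0 := by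
    rw [Finset.sum_comm' (s := A) (t := fun _ => Finset.univ) (t' := Finset.univ) (s' := fun _ => A)
      (by simp)]
    refine Finset.sum_congr rfl fun x _ => ?_
    rw [Finset.sum_comm]
    exact Finset.sum_congr rfl fun y _ => h1 x y
  rw [h2]
  have h3 : ∀ X ∈ A, ∑ x : Fin v, ∑ y ∈ Finset.univ.erase x,
      (if x ∈ X ∧ y ∈ X then 1 else 0) = k * (k - 1) := by
    intro X hX
    have hc : X.card = k := hA.1 X hX
    have h4 : ∀ x : Fin v, ∑ y ∈ Finset.univ.erase x, (if x ∈ X ∧ y ∈ X then 1 else 0) =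
        if x ∈ X then k - 1 else 0 := by
      intro x
      split_ifs with hx
      · rw [← Finset.card_filter]
        have h5 : (Finset.univ.erase x).filter (fun y => x ∈ X ∧ y ∈ X) = X.erase x := by
          ext y
          simp [hx]
        rw [h5, Finset.card_erase_of_mem hx, hc]
      · exact Finset.sum_eq_zero fun y _ => if_neg fun h => hx h.1
    rw [Finset.sum_congr rfl fun x _ => h4 x, ← Finset.sum_filter, Finset.sum_const,
      smul_eq_mul]
    have h6 : (Finset.univ.filter fun x => x ∈ X) = X := by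
      ext y
      simp
    rw [h6, hc]
  rw [Finset.sum_congr rfl h3, Finset.sum_const, smul_eq_mul]

private theorem F1_disj (ht : 2 ≤ t) (hA : IsFam [0, 1, t] (n + t) A) {x y : Fin v}
    {L : Finset (Fin v)} (hLc : L.card = t) (hsub : ∀ X ∈ thr A x y, L ⊆ X) :
    ∀ X ∈ thr A x y, ∀ Y ∈ thr A x y, X ≠ Y → Disjoint (X \ L) (Y \ L) := by
  classical
  intro X hX Y hY hne
  rw [Finset.disjoint_left]
  intro w hw hw'
  have h1 := Finset.mem_sdiff.1 hw
  have h2 := Finset.mem_sdiff.1 hw'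
  have h3 := interT_le (by omega : 1 ≤ t) hA (mem_thr.1 hX).1 (mem_thr.1 hY).1 hne
  have h4 : insert w L ⊆ X ∩ Y := Finset.subset_inter
    (Finset.insert_subset h1.1 (hsub X hX)) (Finset.insert_subset h2.1 (hsub Y hY))
  have h5 := Finset.card_le_card h4
  rw [Finset.card_insert_of_notMem h1.2, hLc] at h5
  omega

private theorem F1_card (hA : IsFam [0, 1, t] (n + t) A) {x y : Fin v}
    {L : Finset (Fin v)} (hLc : L.card = t) (hsub : ∀ X ∈ thr A x y, L ⊆ X) :
    ∀ X ∈ thr A x y, (X \ L).card = n := by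
  intro X hX
  rw [Finset.card_sdiff_of_subset (hsub X hX), hLc, hA.1 X (mem_thr.1 hX).1]
  exact Nat.add_sub_cancel n t

private theorem F1_union (ht : 2 ≤ t) (hA : IsFam [0, 1, t] (n + t) A) {x y : Fin v}
    {L : Finset (Fin v)} (hLc : L.card = t) (hsub : ∀ X ∈ thr A x y, L ⊆ X) :
    ((thr A x y).biUnion fun X => X \ L).card = (thr A x y).card * n := by
  rw [Finset.card_biUnion (F1_disj ht hA hLc hsub), Finset.sum_congr rfl (F1_card hA hLc hsub),
    Finset.sum_const, smul_eq_mul]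

private theorem F1_compl {L : Finset (Fin v)} (hLc : L.card = t) :
    (Finset.univ \ L).card = v - t := by
  rw [Finset.card_sdiff_of_subset (Finset.subset_univ _), hLc, Finset.card_univ,
    Fintype.card_fin]

theorem desL_of_sun (ht : 2 ≤ t) (hn : 1 ≤ n) (hv : t ≤ v) (hA : IsFam [0, 1, t] (n + t) A)
    (h : ∀ x y, x ≠ y → SunT t A x y ∧ (thr A x y).card * n = v - t) :
    ∃ L : Fin v → Fin v → Finset (Fin v), IsDesL t A L := by
  classical
  have hch : ∀ x y : Fin v, ∃ K : Finset (Fin v), x ≠ y →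
      K.card = t ∧ x ∈ K ∧ y ∈ K ∧ ∀ X ∈ thr A x y, K ⊆ X := by
    intro x y
    by_cases hxy : x = y
    · exact ⟨∅, fun h' => absurd hxy h'⟩
    · obtain ⟨K, hK⟩ := (h x y hxy).1
      exact ⟨K, fun _ => hK⟩
  choose L hL using hch
  refine ⟨L, fun x y hxy => ⟨(hL x y hxy).1, (hL x y hxy).2.1, (hL x y hxy).2.2.1⟩,
    fun X hX x hx y hy hxy => (hL x y hxy).2.2.2 X (mem_thr.2 ⟨hX, hx, hy⟩), ?_⟩
  intro x y z hxy hz
  obtain ⟨hLc, _, _, hsub⟩ := hL x y hxy
  have hss : ((thr A x y).biUnion fun X => X \ L x y) ⊆ Finset.univ \ L x y := by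
    intro w hw
    obtain ⟨X, _, hw⟩ := Finset.mem_biUnion.1 hw
    exact Finset.mem_sdiff.2 ⟨Finset.mem_univ _, (Finset.mem_sdiff.1 hw).2⟩
  have heq := Finset.eq_of_subset_of_card_le hss (by
    rw [F1_union ht hA hLc hsub, F1_compl hLc, (h x y hxy).2])
  have hz' : z ∈ Finset.univ \ L x y := Finset.mem_sdiff.2 ⟨Finset.mem_univ _, hz⟩
  rw [← heq] at hz'
  obtain ⟨X, hX, hzX⟩ := Finset.mem_biUnion.1 hz'
  have h1 := mem_thr.1 hX
  exact ⟨X, h1.1, h1.2.1, h1.2.2, (Finset.mem_sdiff.1 hzX).1⟩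

theorem desL_thr (ht : 2 ≤ t) (hn : 1 ≤ n) (hv : t ≤ v) (hA : IsFam [0, 1, t] (n + t) A)
    {L : Fin v → Fin v → Finset (Fin v)} (hL : IsDesL t A L) {x y : Fin v} (hxy : x ≠ y) :
    (thr A x y).card * n = v - t := by
  classical
  obtain ⟨hL1, hL2, hL3⟩ := hL
  obtain ⟨hLc, _, _⟩ := hL1 x y hxy
  have hsub : ∀ X ∈ thr A x y, L x y ⊆ X := by
    intro X hX
    obtain ⟨hXA, hx, hy⟩ := mem_thr.1 hX
    exact hL2 X hXA x hx y hy hxy
  have hun : ((thr A x y).biUnion fun X => X \ L x y) = Finset.univ \ L x y := by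
    ext z
    simp only [Finset.mem_biUnion, Finset.mem_sdiff, Finset.mem_univ, true_and]
    constructor
    · rintro ⟨X, _, _, h⟩
      exact h
    · intro hz
      obtain ⟨X, hX, h1, h2, h3⟩ := hL3 x y z hxy hz
      exact ⟨X, mem_thr.2 ⟨hX, h1, h2⟩, h3, hz⟩
  rw [← F1_union ht hA hLc hsub, hun, F1_compl hLc]

end MP44257e
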