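import Pool.Agent.H.MP_44257e_co.UE.E0

/-!
# Lines, blocks and independent sets of the matroid of a design (general `t`)

`line_eq`: there are two different members through `x, y`: take `z` off `L x y` (`t < v`), a member
`X ∋ x, y, z`, then `z' ∉ X` (`n + t < v`; `z'` is off `L x y ⊆ X`), a member `X' ∋ x, y, z'`. `X ∩ X'`
has `t` points (`interT`) and contains `L x y`, so is `L x y`. So `a, b ∈ X ∩ X'`, `L a b ⊆ X ∩ X'`, and
`L a b = L x y` (both have `t` points).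
`exists_blockL`: third part of `IsDesL`. `block_uniqueL`: `I = {x, y, z}`; else `|X ∩ Y| ≤ t`
(`interT_le`) but `L x y ∪ {z} ⊆ X ∩ Y` has `t + 1` points. Compare `UB/M1.lean`, `UB/M2.lean`.
-/

set_option autoImplicit false

namespace MP44257e

/-- The independent sets of the matroid of a design. -/
def IndL {v : ℕ} (A : Finset (Finset (Fin v))) (L : Fin v → Fin v → Finset (Fin v))
    (I : Finset (Fin v)) : Prop :=
  I.card ≤ 4 ∧ (∀ x ∈ I, ∀ y ∈ I, x ≠ y → ∀ z ∈ I, z ∈ L x y → z = x ∨ z = y) ∧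
    (I.card = 4 → ∀ X ∈ A, ¬ I ⊆ X)

variable {v n t : ℕ} {A : Finset (Finset (Fin v))} {L : Fin v → Fin v → Finset (Fin v)}

private theorem F2_new (S : Finset (Fin v)) (hS : S.card < v) : ∃ z, z ∉ S := by
  by_contra h
  push Not at h
  have h1 : (Finset.univ : Finset (Fin v)) ⊆ S := fun a _ => h a
  have h2 := Finset.card_le_card h1
  rw [Finset.card_univ, Fintype.card_fin] at h2
  omega

private theorem F2_two (hnv : n + t < v) (hA : IsFam [0, 1, t] (n + t) A)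
    (hL : IsDesL t A L) {x y : Fin v} (hxy : x ≠ y) :
    ∃ X ∈ A, ∃ Y ∈ A, X ≠ Y ∧ x ∈ X ∧ y ∈ X ∧ x ∈ Y ∧ y ∈ Y := by
  obtain ⟨z, hz⟩ := F2_new (L x y) (by
    rw [(hL.1 x y hxy).1]
    omega)
  obtain ⟨X, hX, h1, h2, h3⟩ := hL.2.2 x y z hxy hz
  obtain ⟨w, hw⟩ := F2_new X (by
    rw [hA.1 X hX]
    exact hnv)
  obtain ⟨Y, hY, g1, g2, g3⟩ := hL.2.2 x y w hxy
    (fun h => hw (hL.2.1 X hX x h1 y h2 hxy h))
  exact ⟨X, hX, Y, hY, fun h => hw (h ▸ g3), h1, h2, g1, g2⟩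

theorem line_eq (ht : 2 ≤ t) (hn : 1 ≤ n) (hnv : n + t < v) (hA : IsFam [0, 1, t] (n + t) A)
    (hL : IsDesL t A L) {x y a b : Fin v} (hxy : x ≠ y) (hab : a ≠ b) (ha : a ∈ L x y)
    (hb : b ∈ L x y) : L a b = L x y := by
  obtain ⟨X, hX, Y, hY, hne, h1, h2, h3, h4⟩ := F2_two hnv hA hL hxy
  have h5 := interT ht hA hX hY hne hxy h1 h2 h3 h4
  have h6 : L x y ⊆ X ∩ Y :=
    Finset.subset_inter (hL.2.1 X hX x h1 y h2 hxy) (hL.2.1 Y hY x h3 y h4 hxy)
  have h7 : L x y = X ∩ Y := Finset.eq_of_subset_of_card_le h6 (by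
    rw [h5, (hL.1 x y hxy).1])
  have ha' := Finset.mem_inter.1 (h6 ha)
  have hb' := Finset.mem_inter.1 (h6 hb)
  have h8 : L a b ⊆ X ∩ Y :=
    Finset.subset_inter (hL.2.1 X hX a ha'.1 b hb'.1 hab) (hL.2.1 Y hY a ha'.2 b hb'.2 hab)
  have h9 : L a b = X ∩ Y := Finset.eq_of_subset_of_card_le h8 (by
    rw [h5, (hL.1 a b hab).1])
  rw [h9, h7]

theorem exists_blockL (hL : IsDesL t A L) {I : Finset (Fin v)} (hI : IndL A L I)
    (h3 : I.card = 3) : ∃ X ∈ A, I ⊆ X := by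
  obtain ⟨x, y, z, hxy, hxz, hyz, rfl⟩ := Finset.card_eq_three.1 h3
  have h1 : z ∉ L x y := by
    intro h
    rcases hI.2.1 x (by simp) y (by simp) hxy z (by simp) h with h2 | h2
    · exact hxz h2.symm
    · exact hyz h2.symm
  obtain ⟨X, hX, h4, h5, h6⟩ := hL.2.2 x y z hxy h1
  refine ⟨X, hX, ?_⟩
  intro a ha
  simp only [Finset.mem_insert, Finset.mem_singleton] at ha
  rcases ha with rfl | rfl | rfl
  · exact h4
  · exact h5
  · exact h6

theorem block_uniqueL (ht : 2 ≤ t) (hA : IsFam [0, 1, t] (n + t) A) (hL : IsDesL t A L)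
    {I : Finset (Fin v)} (hI : IndL A L I) (h3 : I.card = 3) {X Y : Finset (Fin v)} (hX : X ∈ A)
    (hY : Y ∈ A) (h1 : I ⊆ X) (h2 : I ⊆ Y) : X = Y := by
  by_contra hne
  obtain ⟨x, y, z, hxy, hxz, hyz, rfl⟩ := Finset.card_eq_three.1 h3
  have h4 : z ∉ L x y := by
    intro h
    rcases hI.2.1 x (by simp) y (by simp) hxy z (by simp) h with h2 | h2
    · exact hxz h2.symm
    · exact hyz h2.symm
  have h5 := interT_le (by omega) hA hX hY hne
  have h6 : insert z (L x y) ⊆ X ∩ Y := by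
    refine Finset.insert_subset (Finset.mem_inter.2 ⟨h1 (by simp), h2 (by simp)⟩) ?_
    exact Finset.subset_inter (hL.2.1 X hX x (h1 (by simp)) y (h1 (by simp)) hxy)
      (hL.2.1 Y hY x (h2 (by simp)) y (h2 (by simp)) hxy)
  have h7 := Finset.card_le_card h6
  rw [Finset.card_insert_of_notMem h4, (hL.1 x y hxy).1] at h7
  omega

theorem indL_subset {I J : Finset (Fin v)} (hJ : IndL A L J) (h : I ⊆ J) : IndL A L I := by
  obtain ⟨h1, h2, h3⟩ := hJ
  have h4 := Finset.card_le_card h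
  refine ⟨h4.trans h1, fun x hx y hy hxy z hz hzl => h2 x (h hx) y (h hy) hxy z (h hz) hzl, ?_⟩
  intro h5
  have h6 : I = J := Finset.eq_of_subset_of_card_le h (by omega)
  subst h6
  exact h3 h5

theorem indL_pair (x y : Fin v) : IndL A L {x, y} := by
  have h1 : ({x, y} : Finset (Fin v)).card ≤ 2 := Finset.card_le_two
  refine ⟨by omega, ?_, fun h => by omega⟩
  intro a ha b hb hab z hz _
  simp only [Finset.mem_insert, Finset.mem_singleton] at ha hb hz
  rcases ha with rfl | rfl <;> rcases hb with rfl | rfl <;> rcases hz with rfl | rfl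
  all_goals first
    | exact Or.inl rfl
    | exact Or.inr rfl
    | exact absurd rfl hab

end MP44257e
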