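import Pool.Agent.H.MP_44257e_co.UE.F2

/-!
# Augmentation (general `t`)

`indL_triple`: `I = {e, x, y}`, `e ∉ L x y`: if e.g. `y ∈ L e x` then `L x y = L e x ∋ e` (`line_eq`).
`indL_aug`: cases `I.card = 0, 1`: a pair is independent. `I.card = 2`, `I = {x, y}`: `J` has three
points not on a line, so some `e ∈ J` is not in `L x y` (if all points of `J` are in `L x y` take
`a, b, c ∈ J` different: `c ∈ L x y = L a b`), and `{x, y, e}` is independent. `I.card = 3`: let `X` be
the block of `I`; `J.card = 4` so there is `e ∈ J`, `e ∉ X`; `insert e I`: a line through two points of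
`I` is in `X`, so does not contain `e`; a line through `e` and `a ∈ I` which contains another `b ∈ I`
is `L a b ⊆ X`, so `e ∈ X`; no block contains `insert e I` by `block_uniqueL`. Compare `UB/M3.lean`.
-/

set_option autoImplicit false

namespace MP44257e

variable {v n t : ℕ} {A : Finset (Finset (Fin v))} {L : Fin v → Fin v → Finset (Fin v)}

private theorem F3_key (ht : 2 ≤ t) (hn : 1 ≤ n) (hnv : n + t < v)
    (hA : IsFam [0, 1, t] (n + t) A) (hL : IsDesL t A L)
    {I : Finset (Fin v)} (hI : IndL A L I) {e : Fin v} (he : e ∉ I)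
    (h : ∀ a ∈ I, ∀ b ∈ I, a ≠ b → e ∉ L a b) :
    ∀ x ∈ insert e I, ∀ y ∈ insert e I, x ≠ y → ∀ z ∈ insert e I, z ∈ L x y →
      z = x ∨ z = y := by
  intro x hx y hy hxy z hz hzL
  rw [Finset.mem_insert] at hx hy hz
  rcases hz with rfl | hz
  · by_cases h1 : x = z
    · exact Or.inl h1.symm
    · by_cases h2 : y = z
      · exact Or.inr h2.symm
      · have hx' : x ∈ I := hx.resolve_left h1
        have hy' : y ∈ I := hy.resolve_left h2
        exact absurd hzL (h x hx' y hy' hxy)
  · by_cases h1 : z = x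
    · exact Or.inl h1
    · by_cases h2 : z = y
      · exact Or.inr h2
      · exfalso
        rcases hx with rfl | hx
        · rcases hy with rfl | hy
          · exact hxy rfl
          · have h3 := line_eq ht hn hnv hA hL hxy (Ne.symm h2) (hL.1 x y hxy).2.2 hzL
            refine h y hy z hz (Ne.symm h2) ?_
            rw [h3]
            exact (hL.1 x y hxy).2.1
        · rcases hy with rfl | hy
          · have h3 := line_eq ht hn hnv hA hL hxy (Ne.symm h1) (hL.1 x y hxy).2.1 hzL
            refine h x hx z hz (Ne.symm h1) ?_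
            rw [h3]
            exact (hL.1 x y hxy).2.2
          · rcases hI.2.1 x hx y hy hxy z hz hzL with h3 | h3
            · exact h1 h3
            · exact h2 h3

theorem indL_triple (ht : 2 ≤ t) (hn : 1 ≤ n) (hnv : n + t < v)
    (hA : IsFam [0, 1, t] (n + t) A) (hL : IsDesL t A L) {x y e : Fin v} (hxy : x ≠ y)
    (he : e ∉ L x y) : IndL A L {e, x, y} := by
  have hxL := (hL.1 x y hxy).2.1
  have hyL := (hL.1 x y hxy).2.2
  have heI : e ∉ ({x, y} : Finset (Fin v)) := by
    simp only [Finset.mem_insert, Finset.mem_singleton, not_or]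
    exact ⟨fun h1 => he (h1 ▸ hxL), fun h1 => he (h1 ▸ hyL)⟩
  have h3 : ({e, x, y} : Finset (Fin v)).card ≤ 3 := Finset.card_le_three
  refine ⟨h3.trans (by omega), ?_, fun h4 => by omega⟩
  refine F3_key ht hn hnv hA hL (indL_pair x y) heI ?_
  intro a ha b hb hab
  have ha' : a ∈ L x y := by
    simp only [Finset.mem_insert, Finset.mem_singleton] at ha
    rcases ha with rfl | rfl
    · exact hxL
    · exact hyL
  have hb' : b ∈ L x y := by
    simp only [Finset.mem_insert, Finset.mem_singleton] at hb
    rcases hb with rfl | rfl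
    · exact hxL
    · exact hyL
  rw [line_eq ht hn hnv hA hL hxy hab ha' hb']
  exact he

theorem indL_aug (ht : 2 ≤ t) (hn : 1 ≤ n) (hnv : n + t < v)
    (hA : IsFam [0, 1, t] (n + t) A) (hL : IsDesL t A L)
    {I J : Finset (Fin v)} (hI : IndL A L I) (hJ : IndL A L J) (h : I.card < J.card) :
    ∃ e ∈ J, e ∉ I ∧ IndL A L (insert e I) := by
  have hJ4 := hJ.1
  rcases Nat.lt_or_ge I.card 2 with h2 | h2
  · obtain ⟨e, heJ, heI⟩ : ∃ e ∈ J, e ∉ I := by
      by_contra h3
      push Not at h3
      exact absurd (Finset.card_le_card h3) (not_le.2 h)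
    refine ⟨e, heJ, heI, ?_⟩
    have h4 : I.card = 0 ∨ I.card = 1 := by omega
    rcases h4 with h4 | h4
    · rw [Finset.card_eq_zero] at h4
      subst h4
      have h5 : IndL A L {e, e} := indL_pair e e
      rw [Finset.pair_eq_singleton] at h5
      exact h5
    · obtain ⟨x, rfl⟩ := Finset.card_eq_one.1 h4
      exact indL_pair e x
  · have h4 : I.card = 2 ∨ I.card = 3 := by omega
    rcases h4 with h4 | h4
    · obtain ⟨x, y, hxy, rfl⟩ := Finset.card_eq_two.1 h4
      obtain ⟨e, heJ, heI⟩ : ∃ e ∈ J, e ∉ L x y := by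
        by_contra h3
        push Not at h3
        have h5 : 2 < J.card := by omega
        obtain ⟨a, ha, b, hb, c, hc, hab, hac, hbc⟩ := Finset.two_lt_card.1 h5
        have h6 := line_eq ht hn hnv hA hL hxy hab (h3 a ha) (h3 b hb)
        have h7 := h3 c hc
        rw [← h6] at h7
        rcases hJ.2.1 a ha b hb hab c hc h7 with h8 | h8
        · exact hac h8.symm
        · exact hbc h8.symm
      refine ⟨e, heJ, ?_, indL_triple ht hn hnv hA hL hxy heI⟩
      simp only [Finset.mem_insert, Finset.mem_singleton, not_or]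
      exact ⟨fun h1 => heI (h1 ▸ (hL.1 x y hxy).2.1), fun h1 => heI (h1 ▸ (hL.1 x y hxy).2.2)⟩
    · obtain ⟨X, hX, hIX⟩ := exists_blockL hL hI h4
      obtain ⟨e, heJ, heX⟩ : ∃ e ∈ J, e ∉ X := by
        by_contra h3
        push Not at h3
        exact hJ.2.2 (by omega) X hX h3
      have heI : e ∉ I := fun h5 => heX (hIX h5)
      refine ⟨e, heJ, heI, ?_, ?_, ?_⟩
      · rw [Finset.card_insert_of_notMem heI]
        omega
      · refine F3_key ht hn hnv hA hL hI heI ?_
        intro a ha b hb hab h5
        exact heX (hL.2.1 X hX a (hIX ha) b (hIX hb) hab h5)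
      · intro _ Y hY h6
        have h7 : I ⊆ Y := (Finset.subset_insert _ _).trans h6
        have h8 := block_uniqueL ht hA hL hI h4 hX hY hIX h7
        exact heX (h8 ▸ h6 (Finset.mem_insert_self _ _))

end MP44257e
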