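import Pool.Agent.H.MP_44257e_co.UE.F3

/-!
# The matroid of a design: closures (general `t`)

Copy of `UB/N0.lean`, `UB/N1.lean`, `UB/N2.lean`, `UB/N3.lean`. Closure of `{x}`: `{x}`; of `{x, y}`:
`L x y`; of an independent triple: its block; of an independent quadruple: everything. For the pair:
`e ∉ L x y → IndL {e, x, y}` is `indL_triple`; `e ∈ L x y`, `e ≠ x, y`: `{e, x, y}` is not independent.
For the triple: `e ∉ X`: `insert e I` is independent (see the header of `F3`; you may use
`indL_aug` with an independent quadruple only if you have one, so argue directly); `e ∈ X`: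
`insert e I ⊆ X`.
-/

set_option autoImplicit false

namespace MP44257e

variable {v n t : ℕ} {A : Finset (Finset (Fin v))} {L : Fin v → Fin v → Finset (Fin v)}
  {M : Matroid (Fin v)}

private theorem F4_mem_closure (hM : M.E = Set.univ)
    (hI : ∀ I : Finset (Fin v), M.Indep (I : Set (Fin v)) ↔ IndL A L I) {I : Finset (Fin v)}
    (h : IndL A L I) {e : Fin v} :
    e ∈ M.closure (I : Set (Fin v)) ↔ (e ∉ I → ¬ IndL A L (insert e I)) := by
  rw [Matroid.Indep.mem_closure_iff' ((hI I).2 h), ← Finset.coe_insert, hI, hM, Finset.mem_coe]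
  constructor
  · rintro ⟨_, h1⟩ h2 h3
    exact h2 (h1 h3)
  · intro h1
    refine ⟨Set.mem_univ e, fun h2 => ?_⟩
    by_contra h3
    exact h1 h3 h2

theorem exists_matroidL (ht : 2 ≤ t) (hn : 1 ≤ n) (hnv : n + t < v)
    (hA : IsFam [0, 1, t] (n + t) A) (hL : IsDesL t A L) :
    ∃ M : Matroid (Fin v), M.E = Set.univ ∧ ∀ I : Finset (Fin v), M.Indep (I : Set (Fin v)) ↔
      IndL A L I := by
  have h0 : IndL A L ∅ := by
    refine ⟨by simp, fun x hx => absurd hx (Finset.notMem_empty x), fun h => ?_⟩
    rw [Finset.card_empty] at h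
    omega
  refine ⟨(IndepMatroid.ofFinset Set.univ (IndL A L) h0 (fun I J hJ h => indL_subset hJ h)
    (fun I J hI hJ h => indL_aug ht hn hnv hA hL hI hJ h) (fun I _ => Set.subset_univ _)).matroid,
    rfl, fun I => ?_⟩
  rw [IndepMatroid.matroid_Indep]
  exact IndepMatroid.ofFinset_indep _ _ _ _ _ _

theorem closure_emptyL (hM : M.E = Set.univ)
    (hI : ∀ I : Finset (Fin v), M.Indep (I : Set (Fin v)) ↔ IndL A L I) :
    M.closure ∅ = ∅ := by
  classical
  have h0 : IndL A L (∅ : Finset (Fin v)) := by
    refine ⟨by simp, ?_, ?_⟩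
    · intro x hx
      exact absurd hx (Finset.notMem_empty x)
    · intro h
      simp at h
  ext e
  have h1 := F4_mem_closure hM hI h0 (e := e)
  rw [Finset.coe_empty] at h1
  rw [h1]
  constructor
  · intro h2
    refine absurd ?_ (h2 (Finset.notMem_empty e))
    have h3 := indL_pair (A := A) (L := L) e e
    rw [Finset.pair_eq_singleton] at h3
    exact h3
  · intro h2
    exact absurd h2 (Set.notMem_empty e)

theorem closure_singleL (hM : M.E = Set.univ)
    (hI : ∀ I : Finset (Fin v), M.Indep (I : Set (Fin v)) ↔ IndL A L I) (x : Fin v) :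
    M.closure {x} = {x} := by
  classical
  have h0 : IndL A L ({x} : Finset (Fin v)) := by
    have h3 := indL_pair (A := A) (L := L) x x
    rw [Finset.pair_eq_singleton] at h3
    exact h3
  ext e
  have h1 := F4_mem_closure hM hI h0 (e := e)
  rw [Finset.coe_singleton] at h1
  rw [h1, Set.mem_singleton_iff, Finset.mem_singleton]
  constructor
  · intro h2
    by_contra h3
    exact h2 h3 (indL_pair (A := A) (L := L) e x)
  · intro h2 h3
    exact absurd h2 h3

theorem closure_pairL (ht : 2 ≤ t) (hn : 1 ≤ n) (hnv : n + t < v)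
    (hA : IsFam [0, 1, t] (n + t) A) (hM : M.E = Set.univ)
    (hI : ∀ I : Finset (Fin v), M.Indep (I : Set (Fin v)) ↔ IndL A L I)
    (hL : IsDesL t A L) {x y : Fin v} (hxy : x ≠ y) :
    M.closure {x, y} = (L x y : Set (Fin v)) := by
  classical
  have h0 : IndL A L ({x, y} : Finset (Fin v)) := indL_pair (A := A) (L := L) x y
  ext e
  have h1 := F4_mem_closure hM hI h0 (e := e)
  rw [Finset.coe_insert, Finset.coe_singleton] at h1
  rw [h1, Finset.mem_coe]
  constructor
  · intro h2
    by_contra h3
    refine h2 ?_ (indL_triple ht hn hnv hA hL hxy h3)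
    intro h4
    rw [Finset.mem_insert, Finset.mem_singleton] at h4
    rcases h4 with h4 | h4
    · exact h3 (h4 ▸ (hL.1 x y hxy).2.1)
    · exact h3 (h4 ▸ (hL.1 x y hxy).2.2)
  · intro h2 h3 h4
    have h5 := h4.2.1 x (by simp) y (by simp) hxy e (by simp) h2
    exact h3 (by simpa using h5)

theorem closure_tripleL (ht : 2 ≤ t) (hn : 1 ≤ n) (hnv : n + t < v)
    (hA : IsFam [0, 1, t] (n + t) A) (hM : M.E = Set.univ)
    (hI : ∀ I : Finset (Fin v), M.Indep (I : Set (Fin v)) ↔ IndL A L I)
    (hL : IsDesL t A L) {I X : Finset (Fin v)} (h : IndL A L I) (h3 : I.card = 3) (hX : X ∈ A)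
    (hIX : I ⊆ X) : M.closure (I : Set (Fin v)) = (X : Set (Fin v)) := by
  classical
  ext e
  rw [F4_mem_closure hM hI h, Finset.mem_coe]
  constructor
  · intro h1
    by_contra heX
    have heI : e ∉ I := fun h2 => heX (hIX h2)
    refine h1 heI ⟨?_, ?_, ?_⟩
    · rw [Finset.card_insert_of_notMem heI, h3]
    · intro x hx y hy hxy z hz hzL
      rw [Finset.mem_insert] at hx hy hz
      rcases hz with hz | hz
      · -- `z = e`
        rcases hx with hx | hx
        · exact Or.inl (hz.trans hx.symm)
        · rcases hy with hy | hy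
          · exact Or.inr (hz.trans hy.symm)
          · exact absurd (hL.2.1 X hX x (hIX hx) y (hIX hy) hxy (hz ▸ hzL)) heX
      · rcases hx with hx | hx
        · rcases hy with hy | hy
          · exact absurd (hx.trans hy.symm) hxy
          · -- `x = e`, `y, z ∈ I`
            by_cases hzy : z = y
            · exact Or.inr hzy
            · exfalso
              have h5 := hL.1 x y hxy
              have h6 : L z y = L x y := line_eq ht hn hnv hA hL hxy hzy hzL h5.2.2
              have h7 : x ∈ L z y := by
                rw [h6]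
                exact h5.2.1
              have h8 := hL.2.1 X hX z (hIX hz) y (hIX hy) hzy h7
              exact heX (hx ▸ h8)
        · rcases hy with hy | hy
          · -- `y = e`, `x, z ∈ I`
            by_cases hzx : z = x
            · exact Or.inl hzx
            · exfalso
              have h5 := hL.1 x y hxy
              have h6 : L z x = L x y := line_eq ht hn hnv hA hL hxy hzx hzL h5.2.1
              have h7 : y ∈ L z x := by
                rw [h6]
                exact h5.2.2
              have h8 := hL.2.1 X hX z (hIX hz) x (hIX hx) hzx h7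
              exact heX (hy ▸ h8)
          · exact h.2.1 x hx y hy hxy z hz hzL
    · intro _ Y hY h4
      have h5 : I ⊆ Y := fun a ha => h4 (Finset.mem_insert_of_mem ha)
      have h6 : Y = X := block_uniqueL ht hA hL h h3 hY hX h5 hIX
      exact heX (h6 ▸ h4 (Finset.mem_insert_self e I))
  · intro heX heI h1
    have h2 : (insert e I).card = 4 := by rw [Finset.card_insert_of_notMem heI, h3]
    refine h1.2.2 h2 X hX ?_
    intro a ha
    rw [Finset.mem_insert] at ha
    rcases ha with ha | ha
    · rw [ha]
      exact heX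
    · exact hIX ha

theorem closure_fourL (hM : M.E = Set.univ)
    (hI : ∀ I : Finset (Fin v), M.Indep (I : Set (Fin v)) ↔ IndL A L I)
    {I : Finset (Fin v)} (h : IndL A L I) (h4 : I.card = 4) :
    M.closure (I : Set (Fin v)) = Set.univ := by
  classical
  ext e
  rw [F4_mem_closure hM hI h]
  refine ⟨fun _ => Set.mem_univ e, fun _ h1 h2 => ?_⟩
  have h3 := h2.1
  rw [Finset.card_insert_of_notMem h1] at h3
  omega

end MP44257e
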