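import Pool.Agent.H.MP_44257e_co.UE.F3

/-!
# Independent triples in blocks and independent quadruples (general `t`)

Copy of `UB/O1.lean`. A block `X` has `n + t > t` points: two points `x, y ∈ X`, and
`e ∈ X` off `L x y` (`t` points). A quadruple: `t < v` gives `x, y, e`, a block `X` through them,
`n + t < v` a point `f ∉ X`; `{f, e, x, y}` is independent: see the header of `F3` (case `I.card = 3`).
-/

set_option autoImplicit false

namespace MP44257e

variable {v n t : ℕ} {A : Finset (Finset (Fin v))} {L : Fin v → Fin v → Finset (Fin v)}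

private theorem F5_ex {S T : Finset (Fin v)} (h : T.card < S.card) : ∃ z ∈ S, z ∉ T :=
  Finset.exists_mem_notMem_of_card_lt_card h

private theorem F5_key (ht : 2 ≤ t) (hn : 1 ≤ n) (hnv : n + t < v)
    (hA : IsFam [0, 1, t] (n + t) A) (hL : IsDesL t A L)
    {I : Finset (Fin v)} (hI : IndL A L I) {e : Fin v} (_he : e ∉ I)
    (h : ∀ a ∈ I, ∀ b ∈ I, a ≠ b → e ∉ L a b) :
    ∀ x ∈ insert e I, ∀ y ∈ insert e I, x ≠ y → ∀ z ∈ insert e I, z ∈ L x y →
      z = x ∨ z = y := by
  intro x hx y hy hxy z hz hzL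
  rw [Finset.mem_insert] at hx hy hz
  rcases hz with rfl | hz
  · by_cases h1 : x = z
    · exact Or.inl h1.symm
    · by_cases h2 : y = z
      · exact Or.inr h2.symm
      · have hx' : x ∈ I := hx.resolve_left h1
        have hy' : y ∈ I := hy.resolve_left h2
        exact absurd hzL (h x hx' y hy' hxy)
  · by_cases h1 : z = x
    · exact Or.inl h1
    · by_cases h2 : z = y
      · exact Or.inr h2
      · exfalso
        rcases hx with rfl | hx
        · rcases hy with rfl | hy
          · exact hxy rfl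
          · have h3 := line_eq ht hn hnv hA hL hxy (Ne.symm h2) (hL.1 x y hxy).2.2 hzL
            refine h y hy z hz (Ne.symm h2) ?_
            rw [h3]
            exact (hL.1 x y hxy).2.1
        · rcases hy with rfl | hy
          · have h3 := line_eq ht hn hnv hA hL hxy (Ne.symm h1) (hL.1 x y hxy).2.1 hzL
            refine h x hx z hz (Ne.symm h1) ?_
            rw [h3]
            exact (hL.1 x y hxy).2.2
          · rcases hI.2.1 x hx y hy hxy z hz hzL with h3 | h3
            · exact h1 h3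
            · exact h2 h3

theorem exists_ind3L (ht : 2 ≤ t) (hn : 1 ≤ n) (hnv : n + t < v)
    (hA : IsFam [0, 1, t] (n + t) A) (hL : IsDesL t A L)
    {X : Finset (Fin v)} (hX : X ∈ A) : ∃ I ⊆ X, I.card = 3 ∧ IndL A L I := by
  have hXk : X.card = n + t := hA.1 X hX
  obtain ⟨x, hx, y, hy, hxy⟩ := Finset.one_lt_card.1 (show 1 < X.card by omega)
  obtain ⟨hLc, hxL, hyL⟩ := hL.1 x y hxy
  obtain ⟨e, he, heL⟩ := F5_ex (S := X) (T := L x y) (by omega)
  have hex : e ≠ x := fun h => heL (h ▸ hxL)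
  have hey : e ≠ y := fun h => heL (h ▸ hyL)
  refine ⟨{e, x, y}, ?_, Finset.card_eq_three.2 ⟨e, x, y, hex, hey, hxy, rfl⟩,
    indL_triple ht hn hnv hA hL hxy heL⟩
  intro a ha
  simp only [Finset.mem_insert, Finset.mem_singleton] at ha
  rcases ha with rfl | rfl | rfl <;> assumption

theorem exists_ind4L (ht : 2 ≤ t) (hn : 1 ≤ n) (hnv : n + t < v)
    (hA : IsFam [0, 1, t] (n + t) A) (hL : IsDesL t A L) :
    ∃ I : Finset (Fin v), I.card = 4 ∧ IndL A L I := by
  have hu : (Finset.univ : Finset (Fin v)).card = v := by simp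
  obtain ⟨X, hX⟩ : ∃ X, X ∈ A := by
    obtain ⟨x, -, y, -, hxy⟩ := Finset.one_lt_card.1
      (show 1 < (Finset.univ : Finset (Fin v)).card by omega)
    obtain ⟨hLc, -, -⟩ := hL.1 x y hxy
    obtain ⟨z, -, hz⟩ := F5_ex (S := Finset.univ) (T := L x y) (by omega)
    obtain ⟨X, hX, -⟩ := hL.2.2 x y z hxy hz
    exact ⟨X, hX⟩
  obtain ⟨I, hIX, hI3, hI⟩ := exists_ind3L ht hn hnv hA hL hX
  have hXk : X.card = n + t := hA.1 X hX
  obtain ⟨e, -, heX⟩ := F5_ex (S := Finset.univ) (T := X) (by omega)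
  have heI : e ∉ I := fun h => heX (hIX h)
  refine ⟨insert e I, by rw [Finset.card_insert_of_notMem heI, hI3], ?_, ?_, ?_⟩
  · rw [Finset.card_insert_of_notMem heI]
    omega
  · refine F5_key ht hn hnv hA hL hI heI ?_
    intro a ha b hb hab h5
    exact heX (hL.2.1 X hX a (hIX ha) b (hIX hb) hab h5)
  · intro _ Y hY h6
    have h7 : I ⊆ Y := (Finset.subset_insert _ _).trans h6
    have h8 := block_uniqueL ht hA hL hI hI3 hX hY hIX h7
    exact heX (h8 ▸ h6 (Finset.mem_insert_self _ _))

end MP44257e
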