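import Pool.Agent.H.MP_44257e_co.UE.F4
import Pool.Agent.H.MP_44257e_co.UE.F5

/-!
# A design is a perfect matroid design (general `t`)

Copy of `UB/O2.lean` (`pmd_of_des`); the flats of rank 2 are the sets `L x y` with `t` points.
-/

set_option autoImplicit false

namespace MP44257e

variable {v n t : ℕ} {A : Finset (Finset (Fin v))} {L : Fin v → Fin v → Finset (Fin v)}

/-- A basis of a set, as a finite set. -/
private theorem F6_basis {M : Matroid (Fin v)} (hE : M.E = Set.univ)
    (hI : ∀ I : Finset (Fin v), M.Indep (I : Set (Fin v)) ↔ IndL A L I) (F : Set (Fin v)) :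
    ∃ I : Finset (Fin v), IndL A L I ∧ (I : Set (Fin v)) ⊆ F ∧
      M.closure (I : Set (Fin v)) = M.closure F ∧ M.eRk F = I.card := by
  classical
  obtain ⟨J, hJ⟩ := M.exists_isBasis F (by rw [hE]; exact Set.subset_univ _)
  have hfin : J.Finite := Set.toFinite J
  refine ⟨hfin.toFinset, ?_, ?_, ?_, ?_⟩
  · rw [← hI, Set.Finite.coe_toFinset]
    exact hJ.indep
  · rw [Set.Finite.coe_toFinset]
    exact hJ.subset
  · rw [Set.Finite.coe_toFinset]
    exact hJ.closure_eq_closure
  · rw [hJ.eRk_eq_encard, ← Set.encard_coe_eq_coe_finsetCard, Set.Finite.coe_toFinset]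

/-- The rank of an independent set. -/
private theorem F6_rk {M : Matroid (Fin v)}
    (hI : ∀ I : Finset (Fin v), M.Indep (I : Set (Fin v)) ↔ IndL A L I) {I : Finset (Fin v)}
    (h : IndL A L I) : M.eRk (I : Set (Fin v)) = I.card := by
  rw [((hI I).2 h).eRk_eq_encard, Set.encard_coe_eq_coe_finsetCard]

theorem pmd_of_desL (ht : 2 ≤ t) (hn : 1 ≤ n) (hnv : n + t < v)
    (hA : IsFam [0, 1, t] (n + t) A) (hL : IsDesL t A L) :
    ∃ M : Matroid (Fin v), IsPMD 4 (fun i => ([0, 1, t] ++ [n + t, v]).getD i 0) M ∧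
      IsHyperplanes 4 M A := by
  classical
  obtain ⟨M, hE, hI⟩ := exists_matroidL ht hn hnv hA hL
  refine ⟨M, ⟨hE, ?_, ?_⟩, ?_⟩
  · -- the rank
    obtain ⟨I, hI4, hind⟩ := exists_ind4L ht hn hnv hA hL
    rw [← M.eRk_univ_eq, ← closure_fourL hE hI hind hI4, M.eRk_closure_eq, F6_rk hI hind, hI4]
  · -- the flats
    intro i hi F hF hr
    obtain ⟨I, hind, -, hcl, hrk⟩ := F6_basis hE hI F
    rw [hF.closure] at hcl
    have hcard : I.card = i := by
      rw [hrk] at hr
      exact_mod_cast hr
    rw [← hcl]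
    interval_cases i
    · rw [Finset.card_eq_zero] at hcard
      rw [hcard, Finset.coe_empty, closure_emptyL hE hI, Set.ncard_empty]
      rfl
    · obtain ⟨x, rfl⟩ := Finset.card_eq_one.1 hcard
      rw [Finset.coe_singleton, closure_singleL hE hI, Set.ncard_singleton]
      rfl
    · obtain ⟨x, y, hxy, rfl⟩ := Finset.card_eq_two.1 hcard
      rw [Finset.coe_pair, closure_pairL ht hn hnv hA hE hI hL hxy, Set.ncard_coe_finset,
        (hL.1 x y hxy).1]
      rfl
    · obtain ⟨X, hX, hIX⟩ := exists_blockL hL hind hcard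
      rw [closure_tripleL ht hn hnv hA hE hI hL hind hcard hX hIX, Set.ncard_coe_finset,
        hA.1 X hX]
      rfl
    · rw [closure_fourL hE hI hind hcard, Set.ncard_univ, Nat.card_eq_fintype_card,
        Fintype.card_fin]
      rfl
  · -- the hyperplanes
    intro X
    constructor
    · intro hX
      obtain ⟨I, hIX, h3, hind⟩ := exists_ind3L ht hn hnv hA hL hX
      have h1 := closure_tripleL ht hn hnv hA hE hI hL hind h3 hX hIX
      constructor
      · rw [← h1]
        exact M.isFlat_closure _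
      · rw [← h1, M.eRk_closure_eq, F6_rk hI hind, h3]
    · rintro ⟨hF, hr⟩
      obtain ⟨I, hind, -, hcl, hrk⟩ := F6_basis hE hI (X : Set (Fin v))
      rw [hF.closure] at hcl
      have hcard : I.card = 3 := by
        rw [hrk] at hr
        exact_mod_cast hr
      obtain ⟨Y, hY, hIY⟩ := exists_blockL hL hind hcard
      rw [closure_tripleL ht hn hnv hA hE hI hL hind hcard hY hIY] at hcl
      rw [← Finset.coe_injective hcl]
      exact hY

end MP44257e
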