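import Pool.Agent.H.MP_44257e_co.UE.E0

/-!
# A perfect matroid design of rank 4 is a design (general `t`)

Copy of `UB/Q1.lean` (`des_of_pmd`): `L x y` = the closure of `{x, y}` (a flat of rank 2, `t` points);
a hyperplane that contains `x, y` contains the closure; `z ∉ L x y`: the closure of `{x, y, z}` is a
hyperplane.
-/

set_option autoImplicit false

namespace MP44257e

variable {v k t : ℕ} {A : Finset (Finset (Fin v))}

theorem desL_of_pmd {M : Matroid (Fin v)}
    (hM : IsPMD 4 (fun i => ([0, 1, t] ++ [k, v]).getD i 0) M) (hH : IsHyperplanes 4 M A) :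
    ∃ L : Fin v → Fin v → Finset (Fin v), IsDesL t A L := by
  obtain ⟨hE, -, hF⟩ := hM
  have hmem : ∀ x, x ∈ M.E := fun x => by
    rw [hE]
    exact Set.mem_univ x
  have hsub : ∀ X : Set (Fin v), X ⊆ M.E := fun X x _ => hmem x
  have r0 : M.closure ∅ = ∅ := by
    have h := hF 0 (by norm_num) (M.closure ∅) (M.isFlat_closure ∅) (by
      rw [M.eRk_closure_eq, M.eRk_empty]
      rfl)
    exact (Set.ncard_eq_zero (Set.toFinite _)).1 h
  have r1 : ∀ x, M.eRk {x} = 1 := by
    intro x
    have h := M.eRk_insert_eq_add_one (e := x) (X := ∅) ⟨hmem x, by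
      rw [r0]
      exact Set.notMem_empty x⟩
    rw [M.eRk_empty, zero_add, insert_empty_eq] at h
    exact h
  have c1 : ∀ x, M.closure {x} = {x} := by
    intro x
    have h : (M.closure {x}).ncard = 1 := hF 1 (by norm_num) (M.closure {x}) (M.isFlat_closure {x}) (by
      rw [M.eRk_closure_eq, r1]
      rfl)
    obtain ⟨z, hz⟩ := Set.ncard_eq_one.1 h
    have hx : x ∈ M.closure {x} := M.subset_closure {x} (hsub _) (Set.mem_singleton x)
    rw [hz] at hx ⊢
    rw [Set.mem_singleton_iff.1 hx]
  have r2 : ∀ x y, x ≠ y → M.eRk {x, y} = 2 := by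
    intro x y hxy
    have h := M.eRk_insert_eq_add_one (e := x) (X := {y}) ⟨hmem x, by
      rw [c1]
      exact hxy⟩
    rw [h, r1]
    norm_num
  refine ⟨fun x y => (Set.toFinite (M.closure {x, y})).toFinset, ?_, ?_, ?_⟩
  · intro x y hxy
    have h : (M.closure {x, y}).ncard = t :=
      hF 2 (by norm_num) (M.closure {x, y}) (M.isFlat_closure {x, y}) (by
        rw [M.eRk_closure_eq, r2 x y hxy]
        rfl)
    have hs := M.subset_closure {x, y} (hsub _)
    refine ⟨?_, ?_, ?_⟩
    · rw [← Set.ncard_eq_toFinset_card]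
      exact h
    · rw [Set.Finite.mem_toFinset]
      exact hs (by simp)
    · rw [Set.Finite.mem_toFinset]
      exact hs (by simp)
  · intro X hX x hx y hy hxy w hw
    rw [Set.Finite.mem_toFinset] at hw
    have hX1 := ((hH X).1 hX).1
    have h2 : ({x, y} : Set (Fin v)) ⊆ (X : Set (Fin v)) := by
      intro a ha
      simp only [Set.mem_insert_iff, Set.mem_singleton_iff] at ha
      rcases ha with rfl | rfl
      · exact hx
      · exact hy
    have h3 := M.closure_subset_closure h2 hw
    rw [hX1.closure] at h3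
    exact h3
  · intro x y z hxy hz0
    have hz : z ∉ M.closure {x, y} := fun h => hz0 ((Set.Finite.mem_toFinset _).2 h)
    have h := M.eRk_insert_eq_add_one (e := z) (X := {x, y}) ⟨hmem z, hz⟩
    rw [r2 x y hxy] at h
    have hs := M.subset_closure (insert z {x, y}) (hsub _)
    have hcoe : (((Set.toFinite (M.closure (insert z {x, y}))).toFinset : Finset (Fin v)) :
        Set (Fin v)) = M.closure (insert z {x, y}) := Set.Finite.coe_toFinset _
    refine ⟨(Set.toFinite (M.closure (insert z {x, y}))).toFinset, (hH _).2 ?_, ?_, ?_, ?_⟩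
    · rw [hcoe]
      refine ⟨M.isFlat_closure _, ?_⟩
      rw [M.eRk_closure_eq, h]
      norm_num
    · rw [Set.Finite.mem_toFinset]
      exact hs (by simp)
    · rw [Set.Finite.mem_toFinset]
      exact hs (by simp)
    · rw [Set.Finite.mem_toFinset]
      exact hs (by simp)

end MP44257e
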